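import Mathlib

/-!
# Arcs in uniquely arcwise connected spaces
-/

open Set

namespace Pool.Agent.Lib.MP_f6f14e_gt

variable {T : Type*} [TopologicalSpace T]

/-- `A` is an arc from `x` to `y` (parametrised by some compact interval). -/
def IsArcR (A : Set T) (x y : T) : Prop :=
  ∃ a b : ℝ, a < b ∧ ∃ γ : ℝ → T, ContinuousOn γ (Icc a b) ∧ InjOn γ (Icc a b) ∧
    γ a = x ∧ γ b = y ∧ γ '' Icc a b = A

/-- abstract properties of the system of arcs of a tree. -/
structure SegSys (T : Type*) [TopologicalSpace T] where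
  seg : T → T → Set T
  symm : ∀ x y, seg x y = seg y x
  self : ∀ x, seg x x = {x}
  left_mem : ∀ x y, x ∈ seg x y
  compact : ∀ x y, IsCompact (seg x y)
  conn : ∀ x y, IsPreconnected (seg x y)
  split : ∀ x y z, z ∈ seg x y → seg x z ∪ seg z y = seg x y
  inter : ∀ x y z, z ∈ seg x y → seg x z ∩ seg z y ⊆ {z}
  glue : ∀ x y z, seg x z ∩ seg z y ⊆ {z} → seg x y = seg x z ∪ seg z y
  first : ∀ F, IsClosed F → ∀ x y, y ∈ F → ∃ z ∈ seg x y, z ∈ F ∧ seg x z ∩ F ⊆ {z}

namespace SegSys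

variable (S : SegSys T)

theorem right_mem (x y : T) : y ∈ S.seg x y := by
  rw [S.symm]; exact S.left_mem y x

theorem antisymm {x y z : T} (h1 : z ∈ S.seg x y) (h2 : y ∈ S.seg x z) : y = z :=
  S.inter x y z h1 ⟨h2, S.right_mem z y⟩

theorem sub_left {x y z : T} (h : z ∈ S.seg x y) : S.seg x z ⊆ S.seg x y := by
  rw [← S.split x y z h]; exact subset_union_left

theorem sub_right {x y z : T} (h : z ∈ S.seg x y) : S.seg z y ⊆ S.seg x y := by
  rw [← S.split x y z h]; exact subset_union_right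

theorem order {x y z w : T} (hz : z ∈ S.seg x y) (hw : w ∈ S.seg x y) :
    w ∈ S.seg x z ∨ z ∈ S.seg x w := by
  have h1 := hw
  rw [← S.split x y z hz] at h1
  rcases h1 with h1 | h1
  · left; exact h1
  · have h2 := hz
    rw [← S.split x y w hw] at h2
    rcases h2 with h2 | h2
    · right; exact h2
    · right
      rw [S.symm] at h1 h2
      have h3 := S.antisymm h1 h2
      rw [h3]; exact S.right_mem x w

/-- if `z ∈ [x,y]` and `w ∈ [x,z]` then `z ∈ [w,y]`. -/
theorem mem_of_mem {x y z w : T} (hz : z ∈ S.seg x y) (hw : w ∈ S.seg x z) :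
    z ∈ S.seg w y := by
  have hwy : w ∈ S.seg x y := S.sub_left hz hw
  have h2 := hz
  rw [← S.split x y w hwy] at h2
  rcases h2 with h2 | h2
  · have := S.antisymm hw h2
    rw [this]; exact S.left_mem w y
  · exact h2

theorem median [T2Space T] (x y w : T) :
    ∃ m, m ∈ S.seg x y ∧ m ∈ S.seg x w ∧ m ∈ S.seg w y := by
  obtain ⟨m, hm1, hm2, hm3⟩ := S.first (S.seg w y) (S.compact w y).isClosed x w (S.left_mem w y)
  refine ⟨m, ?_, hm1, hm2⟩
  have h1 : S.seg x m ∩ S.seg m y ⊆ {m} :=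
    (inter_subset_inter_right _ (S.sub_right hm2)).trans hm3
  rw [S.glue x y m h1]
  left; exact S.right_mem x m

theorem triangle [T2Space T] (x y w : T) : S.seg x y ⊆ S.seg x w ∪ S.seg w y := by
  obtain ⟨m, h1, h2, h3⟩ := S.median x y w
  rw [← S.split x y m h1]
  exact union_subset_union (S.sub_left h2) (S.sub_right h3)

end SegSys

/-! ### From unique arcs to the abstract system -/

section Unique

variable (hU : ∀ x y : T, x ≠ y → ∃! A : Set T, IsArcR A x y)

open Classical in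
/-- the unique arc -/
noncomputable def segU (x y : T) : Set T := if h : x = y then {x} else (hU x y h).choose

theorem segU_self (x : T) : segU hU x x = {x} := by
  unfold segU; rw [dif_pos rfl]

theorem segU_eq_image {a b : ℝ} (hab : a ≤ b) {γ : ℝ → T} (hc : ContinuousOn γ (Icc a b))
    (hi : InjOn γ (Icc a b)) : segU hU (γ a) (γ b) = γ '' Icc a b := by
  rcases hab.eq_or_lt with h | h
  · rw [← h, segU_self, Icc_self, image_singleton]
  · have hne : γ a ≠ γ b := fun he =>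
      h.ne (hi (left_mem_Icc.2 hab) (right_mem_Icc.2 hab) he)
    unfold segU
    rw [dif_neg hne]
    refine ((hU (γ a) (γ b) hne).choose_spec.2 (γ '' Icc a b) ?_).symm
    exact ⟨a, b, h, γ, hc, hi, rfl, rfl, rfl⟩

include hU in
theorem exists_param (x y : T) : ∃ a b : ℝ, a ≤ b ∧ ∃ γ : ℝ → T, ContinuousOn γ (Icc a b) ∧
    InjOn γ (Icc a b) ∧ γ a = x ∧ γ b = y := by
  by_cases h : x = y
  · refine ⟨0, 0, le_rfl, fun _ => x, continuousOn_const, ?_, rfl, h⟩
    rw [Icc_self]; exact injOn_singleton _ _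
  · obtain ⟨A, ⟨a, b, hab, γ, h1, h2, h3, h4, _⟩, _⟩ := hU x y h
    exact ⟨a, b, hab.le, γ, h1, h2, h3, h4⟩

theorem segU_symm (x y : T) : segU hU x y = segU hU y x := by
  obtain ⟨a, b, hab, γ, hc, hi, rfl, rfl⟩ := exists_param hU x y
  rw [segU_eq_image hU hab hc hi]
  have hmaps : MapsTo (fun t : ℝ => -t) (Icc (-b) (-a)) (Icc a b) := by
    intro t ht; simp only [mem_Icc] at ht ⊢; constructor <;> linarith [ht.1, ht.2]
  have h1 : ContinuousOn (fun t : ℝ => γ (-t)) (Icc (-b) (-a)) :=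
    hc.comp continuous_neg.continuousOn hmaps
  have h2 : InjOn (fun t : ℝ => γ (-t)) (Icc (-b) (-a)) := by
    intro s hs t ht hst
    have := hi (hmaps hs) (hmaps ht) hst
    simpa using this
  have h3 := segU_eq_image hU (neg_le_neg hab) h1 h2
  simp only [neg_neg] at h3
  rw [h3]
  ext z
  constructor
  · rintro ⟨t, ht, rfl⟩
    exact ⟨-t, by simp only [mem_Icc] at ht ⊢; constructor <;> linarith [ht.1, ht.2], by simp⟩
  · rintro ⟨t, ht, rfl⟩
    exact ⟨-t, hmaps ht, rfl⟩

theorem segU_left {a b t : ℝ} (ht : t ∈ Icc a b) {γ : ℝ → T} (hc : ContinuousOn γ (Icc a b))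
    (hi : InjOn γ (Icc a b)) : segU hU (γ a) (γ t) = γ '' Icc a t :=
  segU_eq_image hU ht.1 (hc.mono (Icc_subset_Icc le_rfl ht.2))
    (hi.mono (Icc_subset_Icc le_rfl ht.2))

theorem segU_right {a b t : ℝ} (ht : t ∈ Icc a b) {γ : ℝ → T} (hc : ContinuousOn γ (Icc a b))
    (hi : InjOn γ (Icc a b)) : segU hU (γ t) (γ b) = γ '' Icc t b :=
  segU_eq_image hU ht.2 (hc.mono (Icc_subset_Icc ht.1 le_rfl))
    (hi.mono (Icc_subset_Icc ht.1 le_rfl))

theorem segU_glue (x y z : T) (h : segU hU x z ∩ segU hU z y ⊆ {z}) :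
    segU hU x y = segU hU x z ∪ segU hU z y := by
  classical
  obtain ⟨a, b, hab, γ, hc, hi, rfl, rfl⟩ := exists_param hU x z
  obtain ⟨c, d, hcd, η, hc', hi', h3, rfl⟩ := exists_param hU (γ b) y
  rw [segU_eq_image hU hab hc hi] at h ⊢
  rw [← h3] at h ⊢
  rw [segU_eq_image hU hcd hc' hi'] at h ⊢
  set θ : ℝ → T := fun t => if t ≤ b then γ t else η (t - b + c) with hθ
  have hθ1 : ∀ t, t ≤ b → θ t = γ t := fun t ht => if_pos ht
  have hθ2 : ∀ t, b ≤ t → θ t = η (t - b + c) := by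
    intro t ht
    rcases ht.eq_or_lt with h | h
    · rw [← h, hθ1 b le_rfl, sub_self, zero_add, h3]
    · exact if_neg (not_le.2 h)
  have hU1 : Icc a (b + (d - c)) = Icc a b ∪ Icc b (b + (d - c)) :=
    (Icc_union_Icc_eq_Icc hab (by linarith)).symm
  have hmaps : MapsTo (fun t : ℝ => t - b + c) (Icc b (b + (d - c))) (Icc c d) := by
    intro t ht; simp only [mem_Icc] at ht ⊢; constructor <;> linarith [ht.1, ht.2]
  have hcont : ContinuousOn θ (Icc a (b + (d - c))) := by
    rw [hU1]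
    refine ContinuousOn.union_of_isClosed ?_ ?_ isClosed_Icc isClosed_Icc
    · exact hc.congr fun t ht => hθ1 t ht.2
    · have h5 : ContinuousOn (fun t : ℝ => η (t - b + c)) (Icc b (b + (d - c))) :=
        hc'.comp (by fun_prop) hmaps
      exact h5.congr fun t ht => hθ2 t ht.1
  have hcross : ∀ s t, s ∈ Icc a b → t ∈ Icc b (b + (d - c)) → θ s = θ t → s = t := by
    intro s t hs ht hst
    rw [hθ1 s hs.2, hθ2 t ht.1] at hst
    have h5 : γ s ∈ γ '' Icc a b ∩ η '' Icc c d :=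
      ⟨⟨s, hs, rfl⟩, ⟨t - b + c, hmaps ht, hst.symm⟩⟩
    have h6 : γ s = η c := h h5
    have h7 : s = b := hi hs (right_mem_Icc.2 hab) (by rw [h6, h3])
    have h8 : t - b + c = c := hi' (hmaps ht) (left_mem_Icc.2 hcd) (by rw [← hst, h6])
    linarith
  have hinj : InjOn θ (Icc a (b + (d - c))) := by
    rw [hU1]
    rintro s (hs | hs) t (ht | ht) hst
    · rw [hθ1 s hs.2, hθ1 t ht.2] at hst; exact hi hs ht hst
    · exact hcross s t hs ht hst
    · exact (hcross t s ht hs hst.symm).symm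
    · rw [hθ2 s hs.1, hθ2 t ht.1] at hst
      have := hi' (hmaps hs) (hmaps ht) hst
      linarith
  have h5 := segU_eq_image hU (by linarith : a ≤ b + (d - c)) hcont hinj
  rw [hθ1 a hab, hθ2 (b + (d - c)) (by linarith)] at h5
  have h6 : b + (d - c) - b + c = d := by ring
  rw [h6] at h5
  rw [h5, hU1, image_union]
  congr 1
  · exact image_congr fun t ht => hθ1 t ht.2
  · ext z
    constructor
    · rintro ⟨t, ht, rfl⟩
      exact ⟨t - b + c, hmaps ht, (hθ2 t ht.1).symm⟩
    · rintro ⟨t, ht, rfl⟩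
      refine ⟨t - c + b, ?_, ?_⟩
      · simp only [mem_Icc] at ht ⊢; constructor <;> linarith [ht.1, ht.2]
      · rw [hθ2 _ (by linarith [ht.1])]; congr 1; ring

/-- the system of arcs of a uniquely arcwise connected space. -/
noncomputable def segSysU : SegSys T where
  seg := segU hU
  symm := segU_symm hU
  self := segU_self hU
  left_mem x y := by
    obtain ⟨a, b, hab, γ, hc, hi, rfl, rfl⟩ := exists_param hU x y
    rw [segU_eq_image hU hab hc hi]
    exact ⟨a, left_mem_Icc.2 hab, rfl⟩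
  compact x y := by
    obtain ⟨a, b, hab, γ, hc, hi, rfl, rfl⟩ := exists_param hU x y
    rw [segU_eq_image hU hab hc hi]
    exact isCompact_Icc.image_of_continuousOn hc
  conn x y := by
    obtain ⟨a, b, hab, γ, hc, hi, rfl, rfl⟩ := exists_param hU x y
    rw [segU_eq_image hU hab hc hi]
    exact isPreconnected_Icc.image _ hc
  split x y z hz := by
    obtain ⟨a, b, hab, γ, hc, hi, rfl, rfl⟩ := exists_param hU x y
    rw [segU_eq_image hU hab hc hi] at hz ⊢
    obtain ⟨t, ht, rfl⟩ := hz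
    rw [segU_left hU ht hc hi, segU_right hU ht hc hi, ← image_union,
      Icc_union_Icc_eq_Icc ht.1 ht.2]
  inter x y z hz := by
    obtain ⟨a, b, hab, γ, hc, hi, rfl, rfl⟩ := exists_param hU x y
    rw [segU_eq_image hU hab hc hi] at hz
    obtain ⟨t, ht, rfl⟩ := hz
    rw [segU_left hU ht hc hi, segU_right hU ht hc hi]
    rintro _ ⟨⟨s, hs, rfl⟩, ⟨s', hs', h⟩⟩
    have h1 := hi ⟨ht.1.trans hs'.1, hs'.2⟩ ⟨hs.1, hs.2.trans ht.2⟩ h
    have h2 : s = t := le_antisymm hs.2 (h1 ▸ hs'.1)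
    rw [h2]; rfl
  glue := segU_glue hU
  first F hF x y hy := by
    obtain ⟨a, b, hab, γ, hc, hi, rfl, rfl⟩ := exists_param hU x y
    have hcl : IsClosed (Icc a b ∩ γ ⁻¹' F) := hc.preimage_isClosed_of_isClosed isClosed_Icc hF
    have hne : (Icc a b ∩ γ ⁻¹' F).Nonempty := ⟨b, right_mem_Icc.2 hab, hy⟩
    have hbd : BddBelow (Icc a b ∩ γ ⁻¹' F) := ⟨a, fun t ht => ht.1.1⟩
    have hmem := hcl.csInf_mem hne hbd
    set t := sInf (Icc a b ∩ γ ⁻¹' F) with ht
    refine ⟨γ t, ?_, hmem.2, ?_⟩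
    · rw [segU_eq_image hU hab hc hi]; exact ⟨t, hmem.1, rfl⟩
    · rw [segU_left hU hmem.1 hc hi]
      rintro _ ⟨⟨s, hs, rfl⟩, hsF⟩
      have h1 : t ≤ s := csInf_le hbd ⟨⟨hs.1, hs.2.trans hmem.1.2⟩, hsF⟩
      have h2 : s = t := le_antisymm hs.2 h1
      rw [h2]; rfl

theorem segSysU_seg : (segSysU hU).seg = segU hU := rfl

/-- the arc is contained in (equal to) the image of any injective path. -/
theorem segU_of_isArcR {A : Set T} {x y : T} (h : IsArcR A x y) : segU hU x y = A := by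
  obtain ⟨a, b, hab, γ, h1, h2, rfl, rfl, rfl⟩ := h
  exact segU_eq_image hU hab.le h1 h2

end Unique

end Pool.Agent.Lib.MP_f6f14e_gt
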