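import Pool.Agent.Lib.MP_f6f14e_gt.Arc

/-!
# Jordan arcs: homeomorphic images of the unit interval and parametrised arcs
-/

open Set Filter Topology Metric

namespace Pool.Agent.Lib.MP_f6f14e_gt

variable {T : Type*} [TopologicalSpace T]

theorem isArcR_of_homeo {A : Set T} (e : unitInterval ≃ₜ A) : IsArcR A (e 0 : T) (e 1 : T) := by
  refine ⟨0, 1, zero_lt_one, fun t => (e (projIcc 0 1 zero_le_one t) : T), ?_, ?_, ?_, ?_, ?_⟩
  · exact (continuous_subtype_val.comp (e.continuous.comp continuous_projIcc)).continuousOn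
  · intro s hs t ht h
    have h1 : e (projIcc 0 1 zero_le_one s) = e (projIcc 0 1 zero_le_one t) := Subtype.ext h
    have h2 := e.injective h1
    rw [projIcc_of_mem _ hs, projIcc_of_mem _ ht] at h2
    exact congrArg Subtype.val h2
  · change (e (projIcc 0 1 zero_le_one (0 : ℝ)) : T) = (e 0 : T)
    rw [projIcc_left]; rfl
  · change (e (projIcc 0 1 zero_le_one (1 : ℝ)) : T) = (e 1 : T)
    rw [projIcc_right]; rfl
  · ext z
    constructor
    · rintro ⟨t, _, rfl⟩
      exact (e _).2
    · intro hz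
      refine ⟨(e.symm ⟨z, hz⟩ : ℝ), (e.symm ⟨z, hz⟩).2, ?_⟩
      change (e (projIcc 0 1 zero_le_one ((e.symm ⟨z, hz⟩ : ℝ))) : T) = z
      rw [projIcc_val, e.apply_symm_apply]

theorem exists_homeo_of_isArcR [T2Space T] {A : Set T} {x y : T} (h : IsArcR A x y) :
    ∃ e : unitInterval ≃ₜ A, (e 0 : T) = x ∧ (e 1 : T) = y := by
  obtain ⟨a, b, hab, γ, hc, hi, rfl, rfl, rfl⟩ := h
  have hba : 0 < b - a := sub_pos.2 hab
  have hmem : ∀ t : unitInterval, a + (t : ℝ) * (b - a) ∈ Icc a b := by
    intro t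
    have h1 := t.2.1
    have h2 := t.2.2
    constructor
    · have := mul_nonneg h1 hba.le; linarith
    · have := mul_le_mul_of_nonneg_right h2 hba.le; linarith
  let g : unitInterval → (γ '' Icc a b) := fun t => ⟨γ (a + (t : ℝ) * (b - a)), _, hmem t, rfl⟩
  have hg : Continuous g := by
    refine Continuous.subtype_mk ?_ _
    have h1 : Continuous fun t : unitInterval => (⟨a + (t : ℝ) * (b - a), hmem t⟩ : Icc a b) :=
      Continuous.subtype_mk (by fun_prop) _
    exact (continuousOn_iff_continuous_domRestrict.1 hc).comp h1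
  have hinj : Function.Injective g := by
    intro s t hst
    have h1 := hi (hmem s) (hmem t) (congrArg Subtype.val hst)
    have h2 : (s : ℝ) * (b - a) = (t : ℝ) * (b - a) := by linarith
    exact Subtype.ext (mul_right_cancel₀ hba.ne' h2)
  have hsurj : Function.Surjective g := by
    rintro ⟨_, t, ht, rfl⟩
    have h1 : (t - a) / (b - a) ∈ unitInterval := by
      constructor
      · exact div_nonneg (by linarith [ht.1]) hba.le
      · rw [div_le_one hba]; linarith [ht.2]
    refine ⟨⟨(t - a) / (b - a), h1⟩, Subtype.ext ?_⟩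
    change γ (a + (t - a) / (b - a) * (b - a)) = γ t
    rw [div_mul_cancel₀ _ hba.ne']
    congr 1; ring
  let e := Equiv.ofBijective g ⟨hinj, hsurj⟩
  have he : Continuous e := hg
  refine ⟨he.homeoOfEquivCompactToT2, ?_, ?_⟩
  · change γ (a + ((0 : unitInterval) : ℝ) * (b - a)) = γ a
    simp
  · change γ (a + ((1 : unitInterval) : ℝ) * (b - a)) = γ b
    simp

end Pool.Agent.Lib.MP_f6f14e_gt
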