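import Pool.Agent.Lib.MP_f6f14e_gt.Arc

/-!
# Extracting an arc from a path
-/

open Set Filter Topology Metric TopologicalSpace

namespace Pool.Agent.Lib.MP_f6f14e_gt

variable {T : Type*} [MetricSpace T]

/-- `K` is good for `f`: a closed set of parameters such that `f` takes the same value at the end
points of every gap. -/
structure Good (f : ℝ → T) (K : Set ℝ) : Prop where
  closed : IsClosed K
  sub : K ⊆ Icc 0 1
  zero : (0 : ℝ) ∈ K
  one : (1 : ℝ) ∈ K
  gap : ∀ a ∈ K, ∀ b ∈ K, a < b → Ioo a b ∩ K = ∅ → f a = f b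

omit [MetricSpace T] in
theorem good_Icc (f : ℝ → T) : Good f (Icc 0 1) := by
  refine ⟨isClosed_Icc, Subset.rfl, by simp, by simp, ?_⟩
  intro a ha b hb hab h
  exfalso
  have : (a + b) / 2 ∈ Ioo a b ∩ Icc (0 : ℝ) 1 := by
    refine ⟨⟨by linarith, by linarith⟩, ⟨by linarith [ha.1, hb.1], by linarith [ha.2, hb.2]⟩⟩
  rw [h] at this
  exact this

/-- gaps of a closed set around an interval disjoint from it -/
theorem exists_gap {K : Set ℝ} (hK : IsClosed K) {a b s t : ℝ} (ha : a ∈ K) (hb : b ∈ K)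
    (has : a ≤ s) (hst : s ≤ t) (htb : t ≤ b) (hd : Icc s t ∩ K = ∅) :
    ∃ a' ∈ K, ∃ b' ∈ K, a ≤ a' ∧ a' < s ∧ t < b' ∧ b' ≤ b ∧ Ioo a' b' ∩ K = ∅ := by
  have hsK : ∀ u ∈ K, ¬ (s ≤ u ∧ u ≤ t) := by
    intro u hu h
    have : u ∈ Icc s t ∩ K := ⟨h, hu⟩
    rw [hd] at this
    exact this
  have h1 : IsClosed (K ∩ Iic s) := hK.inter isClosed_Iic
  have h1n : (K ∩ Iic s).Nonempty := ⟨a, ha, has⟩
  have h1b : BddAbove (K ∩ Iic s) := ⟨s, fun u hu => hu.2⟩
  have hm1 := h1.csSup_mem h1n h1b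
  have h2 : IsClosed (K ∩ Ici t) := hK.inter isClosed_Ici
  have h2n : (K ∩ Ici t).Nonempty := ⟨b, hb, htb⟩
  have h2b : BddBelow (K ∩ Ici t) := ⟨t, fun u hu => hu.2⟩
  have hm2 := h2.csInf_mem h2n h2b
  refine ⟨sSup (K ∩ Iic s), hm1.1, sInf (K ∩ Ici t), hm2.1, le_csSup h1b ⟨ha, has⟩, ?_, ?_,
    csInf_le h2b ⟨hb, htb⟩, ?_⟩
  · refine lt_of_le_of_ne hm1.2 fun h => ?_
    exact hsK _ hm1.1 ⟨h.ge, by rw [h]; exact hst⟩
  · refine lt_of_le_of_ne hm2.2 fun h => ?_
    exact hsK _ hm2.1 ⟨by rw [← h]; exact hst, h.ge⟩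
  · ext u
    simp only [mem_inter_iff, mem_Ioo, mem_empty_iff_false, iff_false, not_and]
    rintro ⟨hu1, hu2⟩ huK
    rcases le_or_gt u s with h | h
    · exact absurd (le_csSup h1b ⟨huK, h⟩) (not_le.2 hu1)
    · rcases le_or_gt t u with h' | h'
      · exact absurd (csInf_le h2b ⟨huK, h'⟩) (not_le.2 hu2)
      · exact hsK u huK ⟨h.le, h'.le⟩

theorem exists_minimal {f : ℝ → T} (hf : ContinuousOn f (Icc 0 1)) :
    ∃ K, Minimal (· ∈ {K | Good f K}) K := by
  refine zorn_superset _ fun c hc hchain => ?_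
  rcases c.eq_empty_or_nonempty with rfl | hne
  · exact ⟨Icc 0 1, good_Icc f, fun s hs => absurd hs (notMem_empty s)⟩
  refine ⟨⋂₀ c, ?_, fun s hs => sInter_subset_of_mem hs⟩
  obtain ⟨K0, hK0⟩ := hne
  have hcl : IsClosed (⋂₀ c) := isClosed_sInter fun K hK => (hc hK).closed
  refine ⟨hcl, (sInter_subset_of_mem hK0).trans (hc hK0).sub, fun K hK => (hc hK).zero,
    fun K hK => (hc hK).one, ?_⟩
  intro a ha b hb hab hgap
  have ha1 : a ∈ Icc (0 : ℝ) 1 := (hc hK0).sub (ha K0 hK0)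
  have hb1 : b ∈ Icc (0 : ℝ) 1 := (hc hK0).sub (hb K0 hK0)
  rw [← dist_le_zero]
  refine le_of_forall_pos_lt_add fun η hη => ?_
  rw [zero_add]
  obtain ⟨δ1, hδ1, h1⟩ := Metric.continuousOn_iff.1 hf a ha1 (η / 2) (by positivity)
  obtain ⟨δ2, hδ2, h2⟩ := Metric.continuousOn_iff.1 hf b hb1 (η / 2) (by positivity)
  set ε := min (min δ1 δ2) ((b - a) / 2) with hε
  have hεpos : 0 < ε := lt_min (lt_min hδ1 hδ2) (by linarith)
  have hε1 : ε ≤ δ1 := (min_le_left _ _).trans (min_le_left _ _)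
  have hε2 : ε ≤ δ2 := (min_le_left _ _).trans (min_le_right _ _)
  have hε3 : ε ≤ (b - a) / 2 := min_le_right _ _
  -- some member of the chain misses `[a+ε/2, b-ε/2]`
  have hex : ∃ K ∈ c, Icc (a + ε / 2) (b - ε / 2) ∩ K = ∅ := by
    by_contra hcon
    push Not at hcon
    have : Nonempty c := ⟨⟨K0, hK0⟩⟩
    have hI : (⋂ K : c, Icc (a + ε / 2) (b - ε / 2) ∩ (K : Set ℝ)).Nonempty := by
      refine IsCompact.nonempty_iInter_of_directed_nonempty_isCompact_isClosed _ ?_ ?_ ?_ ?_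
      · rintro ⟨K, hK⟩ ⟨K', hK'⟩
        rcases hchain.total hK hK' with h | h
        · exact ⟨⟨K, hK⟩, Subset.rfl, inter_subset_inter_right _ h⟩
        · exact ⟨⟨K', hK'⟩, inter_subset_inter_right _ h, Subset.rfl⟩
      · rintro ⟨K, hK⟩
        exact hcon K hK
      · rintro ⟨K, hK⟩
        exact isCompact_Icc.inter_right (hc hK).closed
      · rintro ⟨K, hK⟩
        exact isClosed_Icc.inter (hc hK).closed
    obtain ⟨u, hu⟩ := hI
    rw [mem_iInter] at hu
    have hu1 : u ∈ Icc (a + ε / 2) (b - ε / 2) := (hu ⟨K0, hK0⟩).1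
    have : u ∈ Ioo a b ∩ ⋂₀ c :=
      ⟨⟨by linarith [hu1.1], by linarith [hu1.2]⟩, fun K hK => (hu ⟨K, hK⟩).2⟩
    rw [hgap] at this
    exact this
  obtain ⟨K, hK, hKe⟩ := hex
  obtain ⟨a', ha', b', hb', e1, e2, e3, e4, e5⟩ := exists_gap (hc hK).closed (ha K hK) (hb K hK)
    (by linarith) (by linarith) (by linarith) hKe
  have h3 := (hc hK).gap a' ha' b' hb' (by linarith) e5
  have h4 := h1 a' ((hc hK).sub ha') (by rw [Real.dist_eq, abs_lt]; constructor <;> linarith)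
  have h5 := h2 b' ((hc hK).sub hb') (by rw [Real.dist_eq, abs_lt]; constructor <;> linarith)
  rw [dist_comm] at h4
  rw [← h3] at h5
  calc dist (f a) (f b) ≤ dist (f a) (f a') + dist (f a') (f b) := dist_triangle _ _ _
    _ < η / 2 + η / 2 := add_lt_add h4 h5
    _ = η := by ring

omit [MetricSpace T] in
theorem min_gap {f : ℝ → T} {K : Set ℝ} (hK : Minimal (· ∈ {K | Good f K}) K)
    {a b : ℝ} (ha : a ∈ K) (hb : b ∈ K) (hfab : f a = f b) : Ioo a b ∩ K = ∅ := by
  have hG : Good f K := hK.prop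
  have ha1 := hG.sub ha
  have hb1 := hG.sub hb
  have hG' : Good f (K \ Ioo a b) := by
    refine ⟨hG.closed.sdiff isOpen_Ioo, sdiff_subset.trans hG.sub, ⟨hG.zero, ?_⟩, ⟨hG.one, ?_⟩, ?_⟩
    · intro h; linarith [h.1, ha1.1]
    · intro h; linarith [h.2, hb1.2]
    · intro c hc d hd hcd hgap
      have hc2 : ¬ (a < c ∧ c < b) := hc.2
      have hd2 : ¬ (a < d ∧ d < b) := hd.2
      have hsub : ∀ u ∈ Ioo c d, u ∉ Ioo a b → u ∉ K := by
        intro u hu1 hu2 hu3
        have : u ∈ Ioo c d ∩ (K \ Ioo a b) := ⟨hu1, hu3, hu2⟩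
        rw [hgap] at this
        exact this
      by_cases hcase : d ≤ a ∨ b ≤ c
      · refine hG.gap c hc.1 d hd.1 hcd ?_
        ext u
        simp only [mem_inter_iff, mem_empty_iff_false, iff_false, not_and]
        intro hu
        refine hsub u hu fun h => ?_
        rcases hcase with h1 | h1
        · linarith [h.1, hu.2]
        · linarith [h.2, hu.1]
      · push Not at hcase
        -- `a < d` and `c < b`
        have hdb : b ≤ d := by
          by_contra h; push Not at h; exact hd2 ⟨hcase.1, h⟩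
        have hca : c ≤ a := by
          by_contra h; push Not at h; exact hc2 ⟨h, hcase.2⟩
        have hca' : c = a := by
          rcases hca.eq_or_lt with h | h
          · exact h
          · exfalso
            exact hsub a ⟨h, hcase.1⟩ (fun h' => lt_irrefl _ h'.1) ha
        have hdb' : b = d := by
          rcases hdb.eq_or_lt with h | h
          · exact h
          · exfalso
            exact hsub b ⟨hcase.2, h⟩ (fun h' => lt_irrefl _ h'.2) hb
        rw [hca', ← hdb', hfab]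
  have h1 := hK.le_of_le hG' sdiff_subset
  ext u
  simp only [mem_inter_iff, mem_empty_iff_false, iff_false, not_and]
  intro hu huK
  exact (h1 huK).2 hu

/-- diameters of the image of pieces of `K` -/
noncomputable def phi (f : ℝ → T) (K : Set ℝ) (a t : ℝ) : ℝ := diam (f '' (K ∩ Icc a t))

/-- the height function -/
noncomputable def hgt (f : ℝ → T) (K : Set ℝ) (t : ℝ) : ℝ :=
  ∑' n : ℕ, (1 / 2 : ℝ) ^ n * phi f K (denseSeq ℝ n) t

section Height

variable {f : ℝ → T} {K : Set ℝ} (hf : ContinuousOn f (Icc 0 1)) (hK : K ⊆ Icc 0 1)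

include hf in
theorem bdd_image {s : Set ℝ} (hs : s ⊆ Icc 0 1) : Bornology.IsBounded (f '' s) :=
  (isCompact_Icc.image_of_continuousOn hf).isBounded.subset (image_mono hs)

include hf hK in
theorem phi_mono (a : ℝ) {t t' : ℝ} (h : t ≤ t') : phi f K a t ≤ phi f K a t' :=
  diam_mono (image_mono (inter_subset_inter_right _ (Icc_subset_Icc le_rfl h)))
    (bdd_image hf (inter_subset_left.trans hK))

include hf hK in
theorem phi_le (a t : ℝ) : phi f K a t ≤ diam (f '' Icc 0 1) :=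
  diam_mono (image_mono (inter_subset_left.trans hK)) (bdd_image hf Subset.rfl)

theorem phi_nonneg (a t : ℝ) : 0 ≤ phi f K a t := diam_nonneg

include hf hK in
theorem phi_incr (a : ℝ) {t t' : ℝ} (ht : t ∈ K) (h : t ≤ t') :
    phi f K a t' ≤ phi f K a t + diam (f '' (K ∩ Icc t t')) := by
  rcases le_or_gt a t with hat | hat
  · have h1 : K ∩ Icc a t' = (K ∩ Icc a t) ∪ (K ∩ Icc t t') := by
      rw [← inter_union_distrib_left, Icc_union_Icc_eq_Icc hat h]
    unfold phi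
    rw [h1, image_union]
    exact diam_union' ⟨f t, ⟨t, ⟨ht, hat, le_rfl⟩, rfl⟩, ⟨t, ⟨ht, le_rfl, h⟩, rfl⟩⟩
  · have h1 : phi f K a t' ≤ diam (f '' (K ∩ Icc t t')) :=
      diam_mono (image_mono (inter_subset_inter_right _ (Icc_subset_Icc hat.le le_rfl)))
        (bdd_image hf (inter_subset_left.trans hK))
    have := phi_nonneg (f := f) (K := K) a t
    linarith

include hf hK in
theorem summable_hgt (t : ℝ) :
    Summable fun n : ℕ => (1 / 2 : ℝ) ^ n * phi f K (denseSeq ℝ n) t := by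
  refine Summable.of_nonneg_of_le (fun n => mul_nonneg (by positivity) (phi_nonneg _ _))
    (fun n => mul_le_mul_of_nonneg_left (phi_le hf hK _ _) (by positivity))
    (summable_geometric_two.mul_right (diam (f '' Icc 0 1)))

include hf hK in
theorem hgt_mono {t t' : ℝ} (h : t ≤ t') : hgt f K t ≤ hgt f K t' :=
  (summable_hgt hf hK t).tsum_le_tsum
    (fun n => mul_le_mul_of_nonneg_left (phi_mono hf hK _ h) (by positivity))
    (summable_hgt hf hK t')

include hf hK in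
theorem hgt_incr {t t' : ℝ} (ht : t ∈ K) (h : t ≤ t') :
    hgt f K t' ≤ hgt f K t + 2 * diam (f '' (K ∩ Icc t t')) := by
  have h1 : HasSum (fun n : ℕ => (1 / 2 : ℝ) ^ n * phi f K (denseSeq ℝ n) t +
      (1 / 2 : ℝ) ^ n * diam (f '' (K ∩ Icc t t')))
      (hgt f K t + 2 * diam (f '' (K ∩ Icc t t'))) :=
    (summable_hgt hf hK t).hasSum.add (hasSum_geometric_two.mul_right _)
  refine hasSum_le (fun n => ?_) (summable_hgt hf hK t').hasSum h1
  rw [← mul_add]
  exact mul_le_mul_of_nonneg_left (phi_incr hf hK _ ht h) (by positivity)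

include hf hK in
theorem hgt_continuousOn : ContinuousOn (hgt f K) K := by
  have huc := isCompact_Icc.uniformContinuousOn_of_continuous hf
  rw [Metric.uniformContinuousOn_iff] at huc
  rw [Metric.continuousOn_iff]
  intro t ht η hη
  obtain ⟨δ, hδ, h1⟩ := huc (η / 4) (by positivity)
  refine ⟨δ, hδ, ?_⟩
  have key : ∀ s ∈ K, ∀ s' ∈ K, s ≤ s' → s' - s < δ → |hgt f K s' - hgt f K s| < η := by
    intro s hs s' hs' hss hd
    have h2 := hgt_incr hf hK hs hss
    have h3 := hgt_mono hf hK hss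
    have h4 : diam (f '' (K ∩ Icc s s')) ≤ η / 4 := by
      refine diam_le_of_forall_dist_le (by positivity) ?_
      rintro _ ⟨u, hu, rfl⟩ _ ⟨v, hv, rfl⟩
      refine (h1 u (hK hu.1) v (hK hv.1) ?_).le
      rw [Real.dist_eq, abs_lt]
      constructor <;> linarith [hu.2.1, hu.2.2, hv.2.1, hv.2.2]
    rw [abs_of_nonneg (by linarith)]
    linarith
  intro s hs hst
  rw [Real.dist_eq, abs_lt] at hst
  rcases le_total s t with h | h
  · rw [dist_comm]; exact key s hs t ht h (by linarith)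
  · exact key t ht s hs h (by linarith)

end Height

section Main

variable {f : ℝ → T} {K : Set ℝ} (hf : ContinuousOn f (Icc 0 1))
  (hK : Minimal (· ∈ {K | Good f K}) K)

include hf hK in
theorem hgt_eq_of_eq {s t : ℝ} (hs : s ∈ K) (ht : t ∈ K) (hst : s ≤ t) (h : f s = f t) :
    hgt f K s = hgt f K t := by
  have hG : Good f K := hK.prop
  unfold hgt
  congr 1
  funext n
  congr 1
  refine le_antisymm (phi_mono hf hG.sub _ hst) ?_
  have h1 := phi_incr hf hG.sub (denseSeq ℝ n) hs hst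
  have h2 : diam (f '' (K ∩ Icc s t)) = 0 := by
    apply diam_subsingleton
    have h3 : ∀ u ∈ K ∩ Icc s t, f u = f s := by
      intro u hu
      rcases hu.2.1.eq_or_lt with h4 | h4
      · rw [← h4]
      · rcases hu.2.2.eq_or_lt with h5 | h5
        · rw [h5, h]
        · exfalso
          have h6 := min_gap hK hs ht h
          have : u ∈ Ioo s t ∩ K := ⟨⟨h4, h5⟩, hu.1⟩
          rw [h6] at this
          exact this
    rintro _ ⟨u, hu, rfl⟩ _ ⟨v, hv, rfl⟩
    rw [h3 u hu, h3 v hv]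
  rw [h2, add_zero] at h1
  exact h1

include hf hK in
theorem hgt_lt {s t : ℝ} (hs : s ∈ K) (ht : t ∈ K) (hst : s ≤ t) (h : f s ≠ f t) :
    hgt f K s < hgt f K t := by
  have hG : Good f K := hK.prop
  have hst' : s < t := lt_of_le_of_ne hst fun h' => h (by rw [h'])
  have hex : ∀ s' ∈ K, ∀ t' ∈ K, s' < t' → f s' ≠ f t' → ∃ k ∈ K, s' < k ∧ k < t' := by
    intro s' hs' t' ht' hst h1
    by_contra hcon
    push Not at hcon
    apply h1
    refine hG.gap s' hs' t' ht' hst ?_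
    ext u
    simp only [mem_inter_iff, mem_Ioo, mem_empty_iff_false, iff_false, not_and]
    rintro ⟨hu1, hu2⟩ huK
    exact absurd hu2 (not_lt.2 (hcon u huK hu1))
  have hk : ∃ k ∈ K, s < k ∧ k < t ∧ f k ≠ f t := by
    obtain ⟨k, hk, hk1, hk2⟩ := hex s hs t ht hst' h
    by_cases hkt : f k = f t
    · obtain ⟨k', hk', hk1', hk2'⟩ := hex s hs k hk hk1 (by rw [hkt]; exact h)
      refine ⟨k', hk', hk1', hk2'.trans hk2, fun h' => ?_⟩
      have h6 := min_gap hK hk' ht h'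
      have : k ∈ Ioo k' t ∩ K := ⟨⟨hk2', hk2⟩, hk⟩
      rw [h6] at this
      exact this
    · exact ⟨k, hk, hk1, hk2, hkt⟩
  obtain ⟨k, hkK, hk1, hk2, hk3⟩ := hk
  obtain ⟨n, hn⟩ : ∃ n, denseSeq ℝ n ∈ Ioo s k :=
    (denseRange_denseSeq ℝ).exists_mem_open isOpen_Ioo ⟨(s + k) / 2, by linarith, by linarith⟩
  refine Summable.tsum_lt_tsum_of_nonneg (i := n)
    (fun n => mul_nonneg (by positivity) (phi_nonneg _ _))
    (fun n => mul_le_mul_of_nonneg_left (phi_mono hf hG.sub _ hst) (by positivity)) ?_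
    (summable_hgt hf hG.sub t)
  refine mul_lt_mul_of_pos_left ?_ (by positivity)
  have h1 : phi f K (denseSeq ℝ n) s = 0 := by
    unfold phi
    rw [Icc_eq_empty (not_le.2 hn.1), inter_empty, image_empty, diam_empty]
  rw [h1]
  have h2 : dist (f k) (f t) ≤ phi f K (denseSeq ℝ n) t :=
    dist_le_diam_of_mem (bdd_image hf (inter_subset_left.trans hG.sub))
      ⟨k, ⟨hkK, hn.2.le, hk2.le⟩, rfl⟩ ⟨t, ⟨ht, (hn.2.trans hk2).le, le_rfl⟩, rfl⟩
  exact (dist_pos.2 hk3).trans_le h2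

include hf hK in
theorem hgt_eq_iff {s t : ℝ} (hs : s ∈ K) (ht : t ∈ K) :
    hgt f K s = hgt f K t ↔ f s = f t := by
  constructor
  · intro h
    by_contra hne
    rcases le_total s t with hst | hst
    · exact (hgt_lt hf hK hs ht hst hne).ne h
    · exact (hgt_lt hf hK ht hs hst (Ne.symm hne)).ne h.symm
  · intro h
    rcases le_total s t with hst | hst
    · exact hgt_eq_of_eq hf hK hs ht hst h
    · exact (hgt_eq_of_eq hf hK ht hs hst h.symm).symm

include hf hK in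
theorem hgt_surj {y : ℝ} (hy : y ∈ Icc (hgt f K 0) (hgt f K 1)) : ∃ t ∈ K, hgt f K t = y := by
  have hG : Good f K := hK.prop
  have hcont := hgt_continuousOn hf hG.sub
  have h1 : IsClosed (K ∩ hgt f K ⁻¹' Iic y) := hcont.preimage_isClosed_of_isClosed hG.closed
    isClosed_Iic
  have h1n : (K ∩ hgt f K ⁻¹' Iic y).Nonempty := ⟨0, hG.zero, hy.1⟩
  have h1b : BddAbove (K ∩ hgt f K ⁻¹' Iic y) := ⟨1, fun u hu => (hG.sub hu.1).2⟩
  have hm1 := h1.csSup_mem h1n h1b
  have h2 : IsClosed (K ∩ hgt f K ⁻¹' Ici y) := hcont.preimage_isClosed_of_isClosed hG.closed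
    isClosed_Ici
  have h2n : (K ∩ hgt f K ⁻¹' Ici y).Nonempty := ⟨1, hG.one, hy.2⟩
  have h2b : BddBelow (K ∩ hgt f K ⁻¹' Ici y) := ⟨0, fun u hu => (hG.sub hu.1).1⟩
  have hm2 := h2.csInf_mem h2n h2b
  set s := sSup (K ∩ hgt f K ⁻¹' Iic y) with hs
  set t := sInf (K ∩ hgt f K ⁻¹' Ici y) with ht
  have hs2 : hgt f K s ≤ y := hm1.2
  have ht2 : y ≤ hgt f K t := hm2.2
  rcases lt_trichotomy s t with hst | hst | hst
  · have hgap : Ioo s t ∩ K = ∅ := by
      ext u
      simp only [mem_inter_iff, mem_Ioo, mem_empty_iff_false, iff_false, not_and]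
      rintro ⟨hu1, hu2⟩ huK
      rcases le_total (hgt f K u) y with h | h
      · exact absurd (le_csSup h1b ⟨huK, h⟩) (not_le.2 hu1)
      · exact absurd (csInf_le h2b ⟨huK, h⟩) (not_le.2 hu2)
    have h3 := hG.gap s hm1.1 t hm2.1 hst hgap
    have h4 := (hgt_eq_iff hf hK hm1.1 hm2.1).2 h3
    exact ⟨s, hm1.1, le_antisymm hs2 (h4 ▸ ht2)⟩
  · exact ⟨s, hm1.1, le_antisymm hs2 (hst ▸ ht2)⟩
  · exact ⟨t, hm2.1, le_antisymm ((hgt_mono hf hG.sub hst.le).trans hs2) ht2⟩

end Main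

/-- **Arc extraction**: the image of a path between distinct points contains an arc. -/
theorem exists_arc_in_path {f : ℝ → T} (hf : ContinuousOn f (Icc 0 1)) (hne : f 0 ≠ f 1) :
    ∃ A ⊆ f '' Icc 0 1, IsArcR A (f 0) (f 1) := by
  obtain ⟨K, hK⟩ := exists_minimal hf
  have hG : Good f K := hK.prop
  have hlt : hgt f K 0 < hgt f K 1 := hgt_lt hf hK hG.zero hG.one (by norm_num) hne
  have hsurj : ∀ y, ∃ t, y ∈ Icc (hgt f K 0) (hgt f K 1) → t ∈ K ∧ hgt f K t = y := by
    intro y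
    by_cases hy : y ∈ Icc (hgt f K 0) (hgt f K 1)
    · obtain ⟨t, ht, h⟩ := hgt_surj hf hK hy
      exact ⟨t, fun _ => ⟨ht, h⟩⟩
    · exact ⟨0, fun h => absurd h hy⟩
  choose τ hτ using hsurj
  have h0m : hgt f K 0 ∈ Icc (hgt f K 0) (hgt f K 1) := left_mem_Icc.2 hlt.le
  have h1m : hgt f K 1 ∈ Icc (hgt f K 0) (hgt f K 1) := right_mem_Icc.2 hlt.le
  refine ⟨(fun y => f (τ y)) '' Icc (hgt f K 0) (hgt f K 1), ?_, hgt f K 0, hgt f K 1, hlt,
    fun y => f (τ y), ?_, ?_, ?_, ?_, rfl⟩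
  · rintro _ ⟨y, hy, rfl⟩
    exact ⟨τ y, hG.sub (hτ y hy).1, rfl⟩
  · rw [continuousOn_iff_isClosed]
    intro C hC
    have hcl : IsClosed (K ∩ f ⁻¹' C) :=
      (hf.mono hG.sub).preimage_isClosed_of_isClosed hG.closed hC
    have hcomp : IsCompact (K ∩ f ⁻¹' C) :=
      isCompact_Icc.of_isClosed_subset hcl (inter_subset_left.trans hG.sub)
    refine ⟨hgt f K '' (K ∩ f ⁻¹' C), ?_, ?_⟩
    · exact (hcomp.image_of_continuousOn
        ((hgt_continuousOn hf hG.sub).mono inter_subset_left)).isClosed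
    · ext y
      simp only [mem_inter_iff, mem_preimage]
      constructor
      · rintro ⟨h1, h2⟩
        exact ⟨⟨τ y, ⟨(hτ y h2).1, h1⟩, (hτ y h2).2⟩, h2⟩
      · rintro ⟨⟨t, ht, hty⟩, h2⟩
        refine ⟨?_, h2⟩
        have h3 : f (τ y) = f t := (hgt_eq_iff hf hK (hτ y h2).1 ht.1).1
          (by rw [(hτ y h2).2, hty])
        rw [h3]; exact ht.2
  · intro y hy z hz hyz
    have h3 := (hgt_eq_iff hf hK (hτ y hy).1 (hτ z hz).1).2 hyz
    rw [(hτ y hy).2, (hτ z hz).2] at h3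
    exact h3
  · exact (hgt_eq_iff hf hK (hτ _ h0m).1 hG.zero).1 (hτ _ h0m).2
  · exact (hgt_eq_iff hf hK (hτ _ h1m).1 hG.one).1 (hτ _ h1m).2

end Pool.Agent.Lib.MP_f6f14e_gt
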