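import Mathlib

/-!
# Paths in bounded turning complete spaces
-/

open Set Filter Topology

namespace Pool.Agent.Lib.MP_f6f14e_gt

variable {T : Type*} [MetricSpace T]

theorem reflTransGen_symm {α : Type*} {r : α → α → Prop} (hr : ∀ a b, r a b → r b a) {a b : α}
    (h : Relation.ReflTransGen r a b) : Relation.ReflTransGen r b a := by
  induction h with
  | refl => exact Relation.ReflTransGen.refl
  | tail _ h2 ih => exact Relation.ReflTransGen.head (hr _ _ h2) ih

theorem exists_chain {E : Set T} (hE : IsPreconnected E) {x y : T} (hx : x ∈ E) (hy : y ∈ E)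
    {δ : ℝ} (hδ : 0 < δ) :
    ∃ (m : ℕ) (c : ℕ → T), c 0 = x ∧ (∀ j, m ≤ j → c j = y) ∧ (∀ j, c j ∈ E) ∧
      ∀ j, dist (c j) (c (j + 1)) ≤ δ := by
  have h1 : Relation.ReflTransGen (fun a b => a ∈ E ∧ b ∈ E ∧ dist a b ≤ δ) x y := by
    refine hE.induction₂ (Relation.ReflTransGen (fun a b => a ∈ E ∧ b ∈ E ∧ dist a b ≤ δ))
      ?_ ?_ ?_ hx hy
    · intro a ha
      have : ∀ᶠ b in 𝓝[E] a, dist b a < δ :=
        mem_nhdsWithin_of_mem_nhds (Metric.ball_mem_nhds a hδ)
      filter_upwards [this, self_mem_nhdsWithin] with b hb hbE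
      exact Relation.ReflTransGen.single ⟨ha, hbE, by rw [dist_comm]; exact hb.le⟩
    · intro a b c _ _ _ h1 h2
      exact h1.trans h2
    · intro a b _ _ h
      exact reflTransGen_symm (fun a b h => ⟨h.2.1, h.1, by rw [dist_comm]; exact h.2.2⟩) h
  induction h1 using Relation.ReflTransGen.head_induction_on with
  | refl => exact ⟨0, fun _ => y, rfl, fun _ _ => rfl, fun _ => hy, fun _ => by simp [hδ.le]⟩
  | @head a b h1 _ ih =>
    obtain ⟨m, c, hc0, hcm, hcE, hcd⟩ := ih h1.2.1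
    refine ⟨m + 1, fun j => if j = 0 then a else c (j - 1), if_pos rfl, ?_, ?_, ?_⟩
    · intro j hj
      beta_reduce
      rw [if_neg (by omega)]
      exact hcm _ (by omega)
    · intro j
      beta_reduce
      by_cases h : j = 0
      · rw [if_pos h]; exact h1.1
      · rw [if_neg h]; exact hcE _
    · intro j
      beta_reduce
      rw [if_neg (Nat.succ_ne_zero j)]
      by_cases h : j = 0
      · rw [if_pos h, h]
        change dist a (c 0) ≤ δ
        rw [hc0]; exact h1.2.2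
      · rw [if_neg h]
        have := hcd (j - 1)
        have e : j - 1 + 1 = j + 1 - 1 := by omega
        rw [e] at this
        exact this

/-- A stage of the refinement. -/
structure Stage (u v : T) (ε : ℝ) (p : ℕ × (ℕ → T)) : Prop where
  pos : 1 ≤ p.1
  start : p.2 0 = u
  fin : ∀ i, p.1 ≤ i → p.2 i = v
  step : ∀ i, dist (p.2 i) (p.2 (i + 1)) ≤ ε

theorem refine_stage {B : ℝ} (hB : 0 ≤ B)
    (hbt : ∀ u v : T, ∃ E : Set T, IsPreconnected E ∧ u ∈ E ∧ v ∈ E ∧
      ∀ p ∈ E, ∀ q ∈ E, dist p q ≤ B * dist u v)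
    {u v : T} {ε ε' : ℝ} (hε' : 0 < ε') {p : ℕ × (ℕ → T)} (hp : Stage u v ε p) :
    ∃ (M : ℕ) (p' : ℕ × (ℕ → T)), 1 ≤ M ∧ p'.1 = p.1 * M ∧ Stage u v ε' p' ∧
      ∀ q, dist (p.2 (q / M)) (p'.2 q) ≤ B * ε := by
  have h1 : ∀ i, ∃ (m : ℕ) (c : ℕ → T), c 0 = p.2 i ∧ (∀ j, m ≤ j → c j = p.2 (i + 1)) ∧
      (∀ j, dist (p.2 i) (c j) ≤ B * dist (p.2 i) (p.2 (i + 1))) ∧
      ∀ j, dist (c j) (c (j + 1)) ≤ ε' := by
    intro i
    obtain ⟨E, hE, hu, hv, hd⟩ := hbt (p.2 i) (p.2 (i + 1))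
    obtain ⟨m, c, hc0, hcm, hcE, hcd⟩ := exists_chain hE hu hv hε'
    exact ⟨m, c, hc0, hcm, fun j => hd _ hu _ (hcE j), hcd⟩
  choose m c hc0 hcm hcd hcs using h1
  set M := 1 + ∑ i ∈ Finset.range p.1, m i with hM
  have hMpos : 0 < M := by omega
  have hmM : ∀ i, i < p.1 → m i ≤ M - 1 := by
    intro i hi
    have := Finset.single_le_sum (f := m) (fun i _ => Nat.zero_le _) (Finset.mem_range.2 hi)
    omega
  have hconst : ∀ i, p.1 ≤ i → ∀ j, c i j = v := by
    intro i hi j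
    have h2 := hcd i j
    rw [hp.fin i hi, hp.fin (i + 1) (by omega), dist_self, mul_zero] at h2
    exact (dist_le_zero.1 h2).symm
  refine ⟨M, (p.1 * M, fun q => c (q / M) (q % M)), by omega, rfl, ⟨?_, ?_, ?_, ?_⟩, ?_⟩
  · exact Nat.mul_pos hp.pos hMpos
  · change c (0 / M) (0 % M) = u
    rw [Nat.zero_div, Nat.zero_mod, hc0, hp.start]
  · intro q hq
    change p.1 * M ≤ q at hq
    change c (q / M) (q % M) = v
    exact hconst _ ((Nat.le_div_iff_mul_le hMpos).2 hq) _
  · intro q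
    change dist (c (q / M) (q % M)) (c ((q + 1) / M) ((q + 1) % M)) ≤ ε'
    have hq := Nat.div_add_mod q M
    have hr := Nat.mod_lt q hMpos
    rcases Nat.lt_or_ge (q % M + 1) M with h2 | h2
    · have e1 : (q + 1) / M = q / M := by
        rw [Nat.div_eq_iff hMpos]
        have := Nat.mul_comm M (q / M)
        constructor <;> omega
      have e2 : (q + 1) % M = q % M + 1 := by
        have h3 := Nat.div_add_mod (q + 1) M
        rw [e1] at h3
        omega
      rw [e1, e2]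
      exact hcs _ _
    · have e0 : q % M = M - 1 := by omega
      have hq1 : q + 1 = M * (q / M + 1) := by rw [Nat.mul_add]; omega
      have e1 : (q + 1) / M = q / M + 1 := by rw [hq1, Nat.mul_div_cancel_left _ hMpos]
      have e2 : (q + 1) % M = 0 := by rw [hq1, Nat.mul_mod_right]
      rw [e0, e1, e2, hc0]
      rcases Nat.lt_or_ge (q / M) p.1 with h3 | h3
      · rw [hcm _ _ (hmM _ h3), dist_self]; exact hε'.le
      · rw [hconst _ h3, hp.fin _ (by omega), dist_self]; exact hε'.le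
  · intro q
    change dist (p.2 (q / M)) (c (q / M) (q % M)) ≤ B * ε
    exact (hcd _ _).trans (mul_le_mul_of_nonneg_left (hp.step _) hB)

theorem exists_path [CompleteSpace T] {B : ℝ} (hB : 0 ≤ B)
    (hbt : ∀ u v : T, ∃ E : Set T, IsPreconnected E ∧ u ∈ E ∧ v ∈ E ∧
      ∀ p ∈ E, ∀ q ∈ E, dist p q ≤ B * dist u v)
    (u v : T) : ∃ f : ℝ → T, ContinuousOn f (Icc 0 1) ∧ f 0 = u ∧ f 1 = v ∧
      ∀ t ∈ Icc (0 : ℝ) 1, dist u (f t) ≤ 2 * B * dist u v := by
  by_cases huv : u = v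
  · subst huv
    exact ⟨fun _ => u, continuousOn_const, rfl, rfl, fun t _ => by simp⟩
  have hε : 0 < dist u v := dist_pos.2 huv
  set ε := dist u v with hεdef
  -- the sequence of stages
  have step : ∀ (k : ℕ) (p : {p : ℕ × (ℕ → T) // Stage u v (ε / 2 ^ k) p}),
      ∃ (p' : {p : ℕ × (ℕ → T) // Stage u v (ε / 2 ^ (k + 1)) p}) (M : ℕ), 1 ≤ M ∧
        p'.1.1 = p.1.1 * M ∧ ∀ q, dist (p.1.2 (q / M)) (p'.1.2 q) ≤ B * (ε / 2 ^ k) := by
    intro k p
    obtain ⟨M, p', h1, h2, h3, h4⟩ := refine_stage hB hbt (by positivity : 0 < ε / 2 ^ (k + 1)) p.2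
    exact ⟨⟨p', h3⟩, M, h1, h2, h4⟩
  choose next Mf hM1 hM2 hM3 using step
  have init : Stage u v (ε / 2 ^ 0) ((1, fun i => if i = 0 then u else v) : ℕ × (ℕ → T)) := by
    refine ⟨le_rfl, by simp, ?_, ?_⟩
    · intro i hi
      change 1 ≤ i at hi
      exact if_neg (by omega)
    · intro i
      rw [pow_zero, div_one]
      change dist (if i = 0 then u else v) (if i + 1 = 0 then u else v) ≤ ε
      rw [if_neg (Nat.succ_ne_zero i)]
      by_cases h : i = 0
      · rw [if_pos h]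
      · rw [if_neg h, dist_self]; exact hε.le
  let F : ∀ k, {p : ℕ × (ℕ → T) // Stage u v (ε / 2 ^ k) p} :=
    fun k => Nat.rec ⟨_, init⟩ (fun k p => next k p) k
  have hF0 : (F 0).1 = (1, fun i => if i = 0 then u else v) := rfl
  have hFs : ∀ k, F (k + 1) = next k (F k) := fun k => rfl
  -- step functions
  set g : ℕ → ℝ → T := fun k t => (F k).1.2 ⌊t * ((F k).1.1 : ℝ)⌋₊ with hg
  have hgd : ∀ (t : ℝ) (k : ℕ), dist (g k t) (g (k + 1) t) ≤ (2 * B * ε) / 2 / 2 ^ k := by
    intro t k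
    have h1 := hM3 k (F k) ⌊t * ((F (k + 1)).1.1 : ℝ)⌋₊
    have hMpos : (0 : ℝ) < Mf k (F k) := by exact_mod_cast hM1 k (F k)
    have h2 : ⌊t * ((F (k + 1)).1.1 : ℝ)⌋₊ / Mf k (F k) = ⌊t * ((F k).1.1 : ℝ)⌋₊ := by
      rw [← Nat.floor_div_natCast]
      congr 1
      rw [hFs, hM2]
      push_cast
      field_simp
    rw [h2] at h1
    have h3 : (2 * B * ε) / 2 / 2 ^ k = B * (ε / 2 ^ k) := by ring
    rw [h3]
    exact h1
  have hcau : ∀ t, CauchySeq (fun k => g k t) := fun t =>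
    cauchySeq_of_le_geometric_two (hgd t)
  have hlim : ∀ t, ∃ z, Tendsto (fun k => g k t) atTop (𝓝 z) := fun t =>
    cauchySeq_tendsto_of_complete (hcau t)
  choose f hf using hlim
  have hclose : ∀ t k, dist (g k t) (f t) ≤ 2 * B * ε / 2 ^ k := fun t k =>
    dist_le_of_le_geometric_two_of_tendsto (hgd t) (hf t) k
  refine ⟨f, ?_, ?_, ?_, ?_⟩
  · intro t0 ht0
    rw [Metric.continuousWithinAt_iff]
    intro η hη
    obtain ⟨k, hk⟩ : ∃ k : ℕ, (4 * B + 1) * ε / 2 ^ k < η := by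
      have h1 : Tendsto (fun k : ℕ => (4 * B + 1) * ε * (1 / 2) ^ k) atTop (𝓝 ((4 * B + 1) * ε * 0)) :=
        (tendsto_pow_atTop_nhds_zero_of_lt_one (by norm_num) (by norm_num)).const_mul _
      rw [mul_zero] at h1
      obtain ⟨k, hk⟩ := (h1.eventually (gt_mem_nhds hη)).exists
      refine ⟨k, ?_⟩
      rw [one_div, inv_pow] at hk
      rw [div_eq_mul_inv]
      exact hk
    have hnpos : (0 : ℝ) < (F k).1.1 := by exact_mod_cast (F k).2.pos
    refine ⟨1 / (F k).1.1, by positivity, ?_⟩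
    intro t ht htt
    rw [Real.dist_eq, lt_div_iff₀ hnpos] at htt
    have h1 : |t * (F k).1.1 - t0 * (F k).1.1| < 1 := by
      rw [← sub_mul, abs_mul, abs_of_pos hnpos]; exact htt
    rw [abs_lt] at h1
    have ha : 0 ≤ t * (F k).1.1 := mul_nonneg ht.1 hnpos.le
    have hb : 0 ≤ t0 * (F k).1.1 := mul_nonneg ht0.1 hnpos.le
    have h2 : dist (g k t) (g k t0) ≤ ε / 2 ^ k := by
      change dist ((F k).1.2 ⌊t * ((F k).1.1 : ℝ)⌋₊) ((F k).1.2 ⌊t0 * ((F k).1.1 : ℝ)⌋₊) ≤ _
      have hfa := Nat.floor_le ha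
      have hfb := Nat.floor_le hb
      have hfa' := Nat.lt_floor_add_one (t * ((F k).1.1 : ℝ))
      have hfb' := Nat.lt_floor_add_one (t0 * ((F k).1.1 : ℝ))
      set a := ⌊t * ((F k).1.1 : ℝ)⌋₊
      set b := ⌊t0 * ((F k).1.1 : ℝ)⌋₊
      have h3 : a < b + 2 := by
        have : (a : ℝ) < b + 2 := by linarith
        exact_mod_cast this
      have h4 : b < a + 2 := by
        have : (b : ℝ) < a + 2 := by linarith
        exact_mod_cast this
      rcases Nat.lt_trichotomy a b with h5 | h5 | h5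
      · have : b = a + 1 := by omega
        rw [this]; exact (F k).2.step a
      · rw [h5, dist_self]; positivity
      · have : a = b + 1 := by omega
        rw [this, dist_comm]; exact (F k).2.step b
    have h3 := hclose t k
    have h4 := hclose t0 k
    rw [dist_comm] at h3
    calc dist (f t) (f t0) ≤ dist (f t) (g k t) + dist (g k t) (g k t0) + dist (g k t0) (f t0) :=
          dist_triangle4 _ _ _ _
      _ ≤ 2 * B * ε / 2 ^ k + ε / 2 ^ k + 2 * B * ε / 2 ^ k := by gcongr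
      _ = (4 * B + 1) * ε / 2 ^ k := by ring
      _ < η := hk
  · have h1 : ∀ k, g k 0 = u := by
      intro k
      change (F k).1.2 ⌊(0 : ℝ) * ((F k).1.1 : ℝ)⌋₊ = u
      rw [zero_mul, Nat.floor_zero]; exact (F k).2.start
    have h2 := hf 0
    simp only [h1] at h2
    exact tendsto_nhds_unique h2 tendsto_const_nhds
  · have h1 : ∀ k, g k 1 = v := by
      intro k
      change (F k).1.2 ⌊(1 : ℝ) * ((F k).1.1 : ℝ)⌋₊ = v
      rw [one_mul, Nat.floor_natCast]; exact (F k).2.fin _ le_rfl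
    have h2 := hf 1
    simp only [h1] at h2
    exact tendsto_nhds_unique h2 tendsto_const_nhds
  · intro t ht
    rcases ht.2.eq_or_lt with h | h
    · -- `t = 1`
      have h1 : ∀ k, g k 1 = v := by
        intro k
        change (F k).1.2 ⌊(1 : ℝ) * ((F k).1.1 : ℝ)⌋₊ = v
        rw [one_mul, Nat.floor_natCast]; exact (F k).2.fin _ le_rfl
      have h2 := hf 1
      simp only [h1] at h2
      have h3 : f 1 = v := tendsto_nhds_unique h2 tendsto_const_nhds
      rw [h, h3]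
      obtain ⟨E, _, hu, hv, hd⟩ := hbt u v
      have := hd u hu v hv
      have h4 : 0 ≤ B * dist u v := by positivity
      linarith
    · have h1 := hclose t 0
      have h2 : g 0 t = u := by
        change (F 0).1.2 ⌊t * ((F 0).1.1 : ℝ)⌋₊ = u
        rw [hF0]
        have : ⌊t * ((1 : ℕ) : ℝ)⌋₊ = 0 := by
          rw [Nat.cast_one, mul_one]; exact Nat.floor_eq_zero.2 h
        simp only
        rw [this]; simp
      rw [h2, pow_zero, div_one] at h1
      exact h1

end Pool.Agent.Lib.MP_f6f14e_gt
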