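import Pool.Agent.Lib.MP_f6f14e_gt.Stops
import Pool.Agent.Lib.MP_f6f14e_gt.Path
import Pool.Agent.Lib.MP_f6f14e_gt.Extract

/-!
# Passing to the limit
-/

open Set Filter Topology Metric

namespace Pool.Agent.Lib.MP_f6f14e_gt

variable {T : Type*} [MetricSpace T]

/-- arcs are small in bounded turning trees. -/
theorem rho_le_of_bt [CompactSpace T] {B : ℝ} (hB : 0 ≤ B)
    (hbt : ∀ u v : T, ∃ E : Set T, IsPreconnected E ∧ u ∈ E ∧ v ∈ E ∧
      ∀ p ∈ E, ∀ q ∈ E, dist p q ≤ B * dist u v)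
    (hU : ∀ x y : T, x ≠ y → ∃! A : Set T, IsArcR A x y) (x y : T) :
    (segSysU hU).rho x y ≤ 4 * B * dist x y := by
  have key : ∀ w ∈ segU hU x y, dist x w ≤ 2 * B * dist x y := by
    by_cases hxy : x = y
    · intro w hw
      rw [hxy, segU_self] at hw
      rw [hxy, hw, dist_self, mul_zero]
    · obtain ⟨f, hf, h0, h1, h2⟩ := exists_path hB hbt x y
      obtain ⟨A, hA, hA2⟩ := exists_arc_in_path hf (by rw [h0, h1]; exact hxy)
      rw [h0, h1] at hA2
      rw [segU_of_isArcR hU hA2]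
      intro w hw
      obtain ⟨t, ht, rfl⟩ := hA hw
      exact h2 t ht
  refine diam_le_of_forall_dist_le (by positivity) ?_
  intro p hp q hq
  have h1 := key p hp
  have h2 := key q hq
  have h3 := dist_triangle_left p q x
  linarith

theorem exists_limit_map [CompactSpace T] (S : SegSys T) (r : T) {C : ℝ}
    (hC : ∀ x y, S.rho x y ≤ C * dist x y) :
    ∃ f : T → ℝ, (∀ x y, |f x - f y| ≤ 40 * S.rho x y) ∧
      ∀ x y, x ≠ y → ∃ p ∈ S.seg x y, ∃ q ∈ S.seg x y, S.rho x y / 32 ≤ |f p - f q| := by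
  -- bound for rho
  set L := diam (univ : Set T) with hL
  have hLn : 0 ≤ L := diam_nonneg
  have hrho : ∀ x y, S.rho x y ≤ L := fun x y => diam_mono (subset_univ _) isCompact_univ.isBounded
  set δ : ℕ → ℝ := fun n => 1 / ((n : ℝ) + 1) with hδ
  have hδpos : ∀ n, 0 < δ n := fun n => by positivity
  have hδ1 : ∀ n, δ n ≤ 1 := by
    intro n
    rw [hδ]
    simp only
    rw [div_le_one (by positivity)]
    have : (0 : ℝ) ≤ n := Nat.cast_nonneg n
    linarith
  have hδ0 : Tendsto δ atTop (𝓝 0) := tendsto_one_div_add_atTop_nhds_zero_nat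
  have hMex : ∀ n, ∃ M : ℕ, ∀ x y, S.rho x y < 2 ^ M * δ n := by
    intro n
    obtain ⟨M, hM⟩ := pow_unbounded_of_one_lt (L / δ n) (by norm_num : (1 : ℝ) < 2)
    refine ⟨M, fun x y => (hrho x y).trans_lt ?_⟩
    rw [div_lt_iff₀ (hδpos n)] at hM
    exact hM
  choose M hM using hMex
  set F : ℕ → T → ℝ := fun n => ff S (δ n) r (M n) with hF
  have hF1 : ∀ n x y, |F n x - F n y| ≤ 40 * (S.rho x y + 3 * δ n) := fun n x y =>
    ff_upper S hC (δ n) r (hδpos n) (hM n) x y
  have hFb : ∀ n x, F n x ∈ Icc (-(40 * (L + 3))) (40 * (L + 3)) := by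
    intro n x
    have h1 := hF1 n x r
    have h2 : F n r = 0 := ff_root S (δ n) r
    rw [h2, sub_zero] at h1
    have h3 := hrho x r
    have h4 := hδ1 n
    rw [abs_le] at h1
    constructor <;> linarith [h1.1, h1.2]
  -- an ultrafilter
  set U : Ultrafilter ℕ := hyperfilter ℕ with hU
  have hUa : (U : Filter ℕ) ≤ atTop := by
    rw [← Nat.cofinite_eq_atTop]; exact hyperfilter_le_cofinite
  have hδU : Tendsto δ U (𝓝 0) := hδ0.mono_left hUa
  have hlimex : ∀ x, ∃ a ∈ Icc (-(40 * (L + 3))) (40 * (L + 3)),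
      Tendsto (fun n => F n x) U (𝓝 a) := by
    intro x
    have h1 := (isCompact_Icc (a := -(40 * (L + 3))) (b := 40 * (L + 3))).ultrafilter_le_nhds
      (U.map (fun n => F n x)) (by
        rw [Ultrafilter.coe_map, le_principal_iff, mem_map]
        exact Filter.Eventually.of_forall (fun n => hFb n x))
    obtain ⟨a, ha, h2⟩ := h1
    exact ⟨a, ha, h2⟩
  choose f _ hf using hlimex
  refine ⟨f, ?_, ?_⟩
  · intro x y
    have h1 : Tendsto (fun n => |F n x - F n y|) U (𝓝 |f x - f y|) := ((hf x).sub (hf y)).abs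
    have h2 : Tendsto (fun n => 40 * (S.rho x y + 3 * δ n)) U (𝓝 (40 * (S.rho x y + 3 * 0))) :=
      ((hδU.const_mul 3).const_add (S.rho x y)).const_mul 40
    have h3 := le_of_tendsto_of_tendsto h1 h2 (Filter.Eventually.of_forall fun n => hF1 n x y)
    rw [mul_zero, add_zero] at h3
    exact h3
  · intro x y hxy
    have hpos : 0 < S.rho x y := (dist_pos.2 hxy).trans_le (S.dist_le_rho x y)
    have hev : ∀ᶠ n in (U : Filter ℕ), 12 * δ n < S.rho x y := by
      have h1 : Tendsto (fun n => 12 * δ n) U (𝓝 (12 * 0)) := hδU.const_mul 12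
      rw [mul_zero] at h1
      exact h1.eventually (gt_mem_nhds hpos)
    have hpq : ∀ n, ∃ p ∈ S.seg x y, ∃ q ∈ S.seg x y, 12 * δ n < S.rho x y →
        (S.rho x y / 2 - 2 * δ n) / 8 ≤ |F n p - F n q| := by
      intro n
      by_cases h : 12 * δ n < S.rho x y
      · obtain ⟨p, hp, q, hq, h1⟩ := ff_osc S hC (δ n) r (hδpos n) (hM n) h
        exact ⟨p, hp, q, hq, fun _ => h1⟩
      · exact ⟨x, S.left_mem x y, x, S.left_mem x y, fun h' => absurd h' h⟩
    choose p hp q hq hpq using hpq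
    have hcl : ∀ p : ℕ → T, (∀ n, p n ∈ S.seg x y) → ∃ a ∈ S.seg x y, Tendsto p U (𝓝 a) := by
      intro p hp
      obtain ⟨a, ha, h2⟩ := (S.compact x y).ultrafilter_le_nhds (U.map p) (by
        rw [Ultrafilter.coe_map, le_principal_iff, mem_map]
        exact Filter.Eventually.of_forall hp)
      exact ⟨a, ha, h2⟩
    obtain ⟨a, ha, hpa⟩ := hcl p hp
    obtain ⟨b, hb, hqb⟩ := hcl q hq
    refine ⟨a, ha, b, hb, ?_⟩
    -- `F n (p n) → f a`
    have hconv : ∀ (p : ℕ → T) (a : T), Tendsto p U (𝓝 a) →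
        Tendsto (fun n => F n (p n)) U (𝓝 (f a)) := by
      intro p a hpa
      have h1 : Tendsto (fun n => F n (p n) - F n a) U (𝓝 0) := by
        have h2 : Tendsto (fun n => 40 * (C * dist (p n) a + 3 * δ n)) U
            (𝓝 (40 * (C * 0 + 3 * 0))) := by
          have h3 : Tendsto (fun n => dist (p n) a) U (𝓝 0) := tendsto_iff_dist_tendsto_zero.1 hpa
          exact ((h3.const_mul C).add (hδU.const_mul 3)).const_mul 40
        rw [mul_zero, mul_zero, add_zero, mul_zero] at h2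
        refine squeeze_zero_norm (fun n => ?_) h2
        rw [Real.norm_eq_abs]
        refine (hF1 n (p n) a).trans ?_
        have := hC (p n) a
        linarith
      have h2 := h1.add (hf a)
      simp only [sub_add_cancel, zero_add] at h2
      exact h2
    have h1 : Tendsto (fun n => |F n (p n) - F n (q n)|) U (𝓝 |f a - f b|) :=
      ((hconv p a hpa).sub (hconv q b hqb)).abs
    have h2 : Tendsto (fun n => (S.rho x y / 2 - 2 * δ n) / 8) U
        (𝓝 ((S.rho x y / 2 - 2 * 0) / 8)) :=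
      ((hδU.const_mul 2).const_sub _).div_const 8
    have h3 := le_of_tendsto_of_tendsto h2 h1 (hev.mono fun n hn => hpq n hn)
    linarith

/-- chains of points with `rho`-small steps stay in the fibre neighbourhood: the light estimate -/
theorem light_estimate (S : SegSys T) {C : ℝ} (hC1 : 0 < C)
    (hC : ∀ x y, S.rho x y ≤ C * dist x y) {f : T → ℝ}
    (h1 : ∀ x y, |f x - f y| ≤ 40 * S.rho x y)
    (h2 : ∀ x y, x ≠ y → ∃ p ∈ S.seg x y, ∃ q ∈ S.seg x y, S.rho x y / 32 ≤ |f p - f q|)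
    {A : Set T} {w : ℝ} (hw : 0 < w) (hA : ∀ x ∈ A, ∀ y ∈ A, |f x - f y| ≤ w) {x y : T}
    (hx : x ∈ A)
    (hxy : Relation.ReflTransGen (fun a b => a ∈ A ∧ b ∈ A ∧ dist a b ≤ w) x y) :
    dist x y ≤ (32 * (1 + 80 * C)) * w := by
  have key : ∀ p ∈ S.seg x y, ∃ a ∈ A, S.rho a p ≤ C * w := by
    induction hxy with
    | refl =>
      intro p hp
      rw [S.self] at hp
      exact ⟨x, hx, by rw [hp, S.rho_self]; positivity⟩
    | @tail b c _ hbc ih =>
      intro p hp
      rcases S.triangle x c b hp with h | h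
      · exact ih p h
      · refine ⟨b, hbc.1, (S.rho_left h).trans ((hC b c).trans ?_)⟩
        exact mul_le_mul_of_nonneg_left hbc.2.2 hC1.le
  by_cases hne : x = y
  · rw [hne, dist_self]; positivity
  obtain ⟨p, hp, q, hq, h3⟩ := h2 x y hne
  obtain ⟨a, ha, h4⟩ := key p hp
  obtain ⟨b, hb, h5⟩ := key q hq
  have e1 := h1 a p
  have e2 := h1 b q
  have e3 := hA a ha b hb
  have e4 : |f p - f q| ≤ |f p - f a| + |f a - f b| + |f b - f q| := by
    have := abs_sub_le (f p) (f a) (f q)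
    have := abs_sub_le (f a) (f b) (f q)
    linarith
  rw [abs_sub_comm (f p) (f a)] at e4
  have e5 := S.dist_le_rho x y
  linarith

end Pool.Agent.Lib.MP_f6f14e_gt
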