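import Mathlib

/-!
# The online zig-zag algorithm

`D : ℕ → ℕ → ℝ` plays the role of a distance along a sequence of stops.
-/

namespace Pool.Agent.Lib.MP_f6f14e_gt

variable (D : ℕ → ℕ → ℝ) (δ : ℝ)

open Classical in
/-- one step of the update at a level: `p` is the pair (last stop, number of substeps), `s` tells
whether `k + 1` is a stop of the finer level, `w` is the threshold. -/
noncomputable def upd (w : ℝ) (s : Prop) (k : ℕ) (p : ℕ × ℕ) : ℕ × ℕ :=
  if s then (if 1 ≤ p.2 ∧ w ≤ D p.1 (k + 1) then (k + 1, 0) else (p.1, p.2 + 1)) else p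

/-- `st m k = (last stop of level m at time ≤ k, number of level (m-1) stops after it)`. -/
noncomputable def st : ℕ → ℕ → ℕ × ℕ
  | 0 => fun k => (k, 0)
  | m + 1 => fun k => Nat.rec (0, 0)
      (fun k p => upd D (2 ^ m * δ) ((st m (k + 1)).1 = k + 1) k p) k

/-- last stop of level `m` -/
noncomputable def la (m k : ℕ) : ℕ := (st D δ m k).1
/-- number of level `m-1` stops since then. -/
noncomputable def ct (m k : ℕ) : ℕ := (st D δ m k).2

theorem la_zero_level (k : ℕ) : la D δ 0 k = k := rfl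

theorem la_zero (m : ℕ) : la D δ m 0 = 0 := by
  cases m <;> rfl

theorem ct_zero (m : ℕ) : ct D δ m 0 = 0 := by
  cases m <;> rfl

theorem st_succ_succ (m k : ℕ) : st D δ (m + 1) (k + 1) =
    upd D (2 ^ m * δ) (la D δ m (k + 1) = k + 1) k (st D δ (m + 1) k) := rfl

/-- the three possible transitions -/
theorem trans_cases (m k : ℕ) :
    (la D δ m (k + 1) = k + 1 ∧ 1 ≤ ct D δ (m + 1) k ∧
      2 ^ m * δ ≤ D (la D δ (m + 1) k) (k + 1) ∧
      la D δ (m + 1) (k + 1) = k + 1 ∧ ct D δ (m + 1) (k + 1) = 0) ∨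
    (la D δ m (k + 1) = k + 1 ∧ ¬ (1 ≤ ct D δ (m + 1) k ∧
      2 ^ m * δ ≤ D (la D δ (m + 1) k) (k + 1)) ∧
      la D δ (m + 1) (k + 1) = la D δ (m + 1) k ∧
      ct D δ (m + 1) (k + 1) = ct D δ (m + 1) k + 1) ∨
    (la D δ m (k + 1) ≠ k + 1 ∧
      la D δ (m + 1) (k + 1) = la D δ (m + 1) k ∧ ct D δ (m + 1) (k + 1) = ct D δ (m + 1) k) := by
  by_cases h : la D δ m (k + 1) = k + 1
  · by_cases h2 : 1 ≤ ct D δ (m + 1) k ∧ 2 ^ m * δ ≤ D (la D δ (m + 1) k) (k + 1)
    · left
      refine ⟨h, h2.1, h2.2, ?_, ?_⟩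
      · unfold la; rw [st_succ_succ]; unfold upd
        rw [if_pos h]
        have h3 : 1 ≤ (st D δ (m + 1) k).2 ∧ 2 ^ m * δ ≤ D (st D δ (m + 1) k).1 (k + 1) := h2
        rw [if_pos h3]
      · unfold ct; rw [st_succ_succ]; unfold upd
        rw [if_pos h]
        have h3 : 1 ≤ (st D δ (m + 1) k).2 ∧ 2 ^ m * δ ≤ D (st D δ (m + 1) k).1 (k + 1) := h2
        rw [if_pos h3]
    · right; left
      have h3 : ¬ (1 ≤ (st D δ (m + 1) k).2 ∧ 2 ^ m * δ ≤ D (st D δ (m + 1) k).1 (k + 1)) := h2
      refine ⟨h, h2, ?_, ?_⟩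
      · unfold la; rw [st_succ_succ]; unfold upd
        rw [if_pos h, if_neg h3]
      · unfold ct; rw [st_succ_succ]; unfold upd
        rw [if_pos h, if_neg h3]
  · right; right
    refine ⟨h, ?_, ?_⟩
    · unfold la; rw [st_succ_succ]; unfold upd
      rw [if_neg h]
    · unfold ct; rw [st_succ_succ]; unfold upd
      rw [if_neg h]

theorem la_le (m k : ℕ) : la D δ m k ≤ k := by
  cases m with
  | zero => rw [la_zero_level]
  | succ m =>
    induction k with
    | zero => rw [la_zero]
    | succ k ih =>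
      rcases trans_cases D δ m k with h | h | h
      · rw [h.2.2.2.1]
      · rw [h.2.2.1]; omega
      · rw [h.2.1]; omega

theorem la_succ_level (m k : ℕ) :
    la D δ m (k + 1) = la D δ m k ∨ la D δ m (k + 1) = k + 1 := by
  cases m with
  | zero => right; rw [la_zero_level]
  | succ m =>
    rcases trans_cases D δ m k with h | h | h
    · right; exact h.2.2.2.1
    · left; exact h.2.2.1
    · left; exact h.2.1

theorem la_mono (m : ℕ) : Monotone (la D δ m) := by
  refine monotone_nat_of_le_succ fun k => ?_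
  rcases la_succ_level D δ m k with h | h
  · rw [h]
  · rw [h]; have := la_le D δ m k; omega

/-- the last stop is a stop -/
theorem la_la (m k : ℕ) : la D δ m (la D δ m k) = la D δ m k := by
  induction k with
  | zero => rw [la_zero, la_zero]
  | succ k ih =>
    rcases la_succ_level D δ m k with h | h
    · rw [h]; exact ih
    · rw [h]; exact h

/-- stops of level `m+1` are stops of level `m`. -/
theorem stop_of_succ (m k : ℕ) (h : la D δ (m + 1) k = k) : la D δ m k = k := by
  cases k with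
  | zero => exact la_zero D δ m
  | succ k =>
    rcases trans_cases D δ m k with h1 | h1 | h1
    · exact h1.1
    · exact h1.1
    · exfalso
      have := la_le D δ (m + 1) k
      rw [h1.2.1] at h
      omega

theorem la_succ_le (m k : ℕ) : la D δ (m + 1) k ≤ la D δ m k := by
  have h1 := stop_of_succ D δ m _ (la_la D δ (m + 1) k)
  have h2 := la_mono D δ m (la_le D δ (m + 1) k)
  rw [h1] at h2
  exact h2

/-- `la` is constant between stops. -/
theorem la_eq_of_le {m i k : ℕ} (h1 : la D δ m k ≤ i) (h2 : i ≤ k) :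
    la D δ m i = la D δ m k := by
  apply le_antisymm (la_mono D δ m h2)
  have := la_mono D δ m h1
  rw [la_la] at this
  exact this

/-- at a stop of level `m` the counters of that level vanish -/
theorem ct_stop (m k : ℕ) (h : la D δ (m + 1) k = k) : ct D δ (m + 1) k = 0 := by
  cases k with
  | zero => exact ct_zero D δ _
  | succ k =>
    rcases trans_cases D δ m k with h1 | h1 | h1
    · exact h1.2.2.2.2
    · exfalso
      have := la_le D δ (m + 1) k
      rw [h1.2.2.1] at h
      omega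
    · exfalso
      have := la_le D δ (m + 1) k
      rw [h1.2.1] at h
      omega

/-- the level `m+1` state only changes at level `m` stops. -/
theorem state_la (m k : ℕ) :
    la D δ (m + 1) (la D δ m k) = la D δ (m + 1) k ∧
      ct D δ (m + 1) (la D δ m k) = ct D δ (m + 1) k := by
  induction k with
  | zero => rw [la_zero]; exact ⟨rfl, rfl⟩
  | succ k ih =>
    rcases trans_cases D δ m k with h | h | h
    · rw [h.1]; exact ⟨rfl, rfl⟩
    · rw [h.1]; exact ⟨rfl, rfl⟩
    · have h2 : la D δ m (k + 1) = la D δ m k := by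
        rcases la_succ_level D δ m k with h3 | h3
        · exact h3
        · exact absurd h3 h.1
      rw [h2, h.2.1, h.2.2]
      exact ih

/-- if the counter vanishes then the current level `m` interval starts at the level `m+1` stop. -/
theorem la_eq_of_ct_zero (m k : ℕ) (h : ct D δ (m + 1) k = 0) :
    la D δ m k = la D δ (m + 1) k := by
  induction k with
  | zero => rw [la_zero, la_zero]
  | succ k ih =>
    rcases trans_cases D δ m k with h1 | h1 | h1
    · rw [h1.1, h1.2.2.2.1]
    · rw [h1.2.2.2] at h; omega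
    · have h2 : la D δ m (k + 1) = la D δ m k := by
        rcases la_succ_level D δ m k with h3 | h3
        · exact h3
        · exact absurd h3 h1.1
      rw [h2, h1.2.1]
      rw [h1.2.2] at h
      exact ih h

/-- Hypotheses on the distance along the stops up to time `K`. -/
structure Mono (K : ℕ) : Prop where
  nonneg : ∀ i j, 0 ≤ D i j
  self : ∀ i, D i i = 0
  tri : ∀ i j k, i ≤ j → j ≤ k → k ≤ K → D i k ≤ D i j + D j k
  mono : ∀ i i' j' j, i ≤ i' → i' ≤ j' → j' ≤ j → j ≤ K → D i' j' ≤ D i j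
  step : ∀ i, i + 1 ≤ K → D i (i + 1) ≤ δ

variable {D δ} {K : ℕ}

/-- upper bound for the diameter of a level interval, including one more step -/
theorem interval_bound (hD : Mono D δ K) (m k : ℕ) (hk : k + 1 ≤ K) :
    D (la D δ m k) (k + 1) ≤ 2 ^ m * δ := by
  induction m generalizing k with
  | zero =>
    rw [la_zero_level, pow_zero, one_mul]
    exact hD.step k hk
  | succ m ih =>
    set a := la D δ (m + 1) k with ha
    set b := la D δ m k with hb
    have hab : a ≤ b := la_succ_le D δ m k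
    have hbk : b ≤ k := la_le D δ m k
    have h1 : D a (k + 1) ≤ D a b + D b (k + 1) := hD.tri a b (k + 1) hab (by omega) hk
    have h2 := ih k hk
    have h3 : D a b ≤ 2 ^ m * δ := by
      have hδ : 0 ≤ δ := (hD.nonneg k (k + 1)).trans (hD.step k hk)
      obtain ⟨hs1, hs2⟩ := state_la D δ m k
      rcases Nat.eq_or_lt_of_le hab with he | hlt
      · rw [← he, hD.self]; positivity
      · -- `b = b' + 1`
        obtain ⟨b', hb'⟩ : ∃ b', b = b' + 1 := ⟨b - 1, by omega⟩
        have hstop : la D δ m (b' + 1) = b' + 1 := by rw [← hb']; exact la_la D δ m k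
        have hla : la D δ (m + 1) (b' + 1) = a := by rw [← hb']; exact hs1
        rcases trans_cases D δ m b' with h | h | h
        · exfalso; rw [h.2.2.2.1] at hla; omega
        · rw [h.2.2.1] at hla
          have hneg := h.2.1
          rw [hla] at hneg
          by_cases hc : 1 ≤ ct D δ (m + 1) b'
          · have : ¬ (2 ^ m * δ ≤ D a (b' + 1)) := fun h4 => hneg ⟨hc, h4⟩
            rw [hb']
            linarith
          · have hc0 : ct D δ (m + 1) b' = 0 := by omega
            have h5 := la_eq_of_ct_zero D δ m b' hc0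
            rw [hla] at h5
            have h6 := ih b' (by omega)
            rw [h5, ← hb'] at h6
            exact h6
        · exact absurd hstop h.1
    rw [pow_succ]
    linarith

/-- lower bound for the diameter of a complete level interval of level `m+1`. -/
theorem interval_lower (m k : ℕ) (h : la D δ (m + 1) (k + 1) = k + 1) :
    2 ^ m * δ ≤ D (la D δ (m + 1) k) (k + 1) := by
  rcases trans_cases D δ m k with h1 | h1 | h1
  · exact h1.2.2.1
  · exfalso
    have := la_le D δ (m + 1) k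
    rw [h1.2.2.1] at h; omega
  · exfalso
    have := la_le D δ (m + 1) k
    rw [h1.2.1] at h; omega

variable (D δ)

/-- direction of a substep -/
def dir (σ : ℤ) (c : ℕ) : ℤ := if c = 0 then (if σ = 0 then 1 else σ) else
  if c = 1 then (if σ = 0 then -1 else σ) else 0

/-- progress after `c` substeps -/
def prg (σ : ℤ) (c : ℕ) : ℤ := if c = 0 then 0 else
  if c = 1 then (if σ = 0 then 1 else σ) else 2 * σ

theorem prg_succ (σ : ℤ) (c : ℕ) : prg σ (c + 1) - prg σ c = dir σ c := by
  unfold prg dir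
  rcases c with _ | _ | c
  · simp
  · by_cases h : σ = 0 <;> simp [h]; ring
  · simp

theorem two_mul_sub_prg (σ : ℤ) (c : ℕ) (hc : 1 ≤ c) : 2 * σ - prg σ c = dir σ c := by
  unfold prg dir
  rcases c with _ | _ | c
  · omega
  · by_cases h : σ = 0 <;> simp [h]; ring
  · simp

/-- direction at level `M - i` (counted from the top level `M`) -/
noncomputable def sg (M : ℕ) : ℕ → ℕ → ℤ
  | 0 => fun _ => 0
  | i + 1 => fun k => dir (sg M i (la D δ (M - (i + 1)) k))
      (ct D δ (M - i) (la D δ (M - (i + 1)) k))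

/-- value at the last stop of level `M - i` -/
noncomputable def Wv (M : ℕ) : ℕ → ℕ → ℝ
  | 0 => fun _ => 0
  | i + 1 => fun k => Wv M i k + 2 ^ (M - (i + 1)) * δ * (prg (sg D δ M i k) (ct D δ (M - i) k) : ℤ)

/-- the value of the online process with `M` levels at time `k`. -/
noncomputable def vv (M k : ℕ) : ℝ := Wv D δ M M k

theorem sg_abs_le (M i k : ℕ) : |sg D δ M i k| ≤ 1 := by
  induction i generalizing k with
  | zero => simp [sg]
  | succ i ih =>
    change |dir _ _| ≤ 1
    have h := ih (la D δ (M - (i + 1)) k)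
    unfold dir
    split_ifs <;> simp_all

theorem prg_abs_le {σ : ℤ} (hσ : |σ| ≤ 1) (c : ℕ) : |prg σ c| ≤ 2 := by
  unfold prg
  rw [abs_le] at hσ ⊢
  split_ifs <;> constructor <;> omega

/-- the direction only depends on the last stop -/
theorem sg_la (M i k : ℕ) (hi : i ≤ M) : sg D δ M i (la D δ (M - i) k) = sg D δ M i k := by
  cases i with
  | zero => rfl
  | succ i =>
    change dir _ _ = dir _ _
    rw [la_la]

theorem Wv_la (M i k : ℕ) (hi : i ≤ M) : Wv D δ M i (la D δ (M - i) k) = Wv D δ M i k := by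
  induction i generalizing k with
  | zero => rfl
  | succ i ih =>
    have hM : M - i = (M - (i + 1)) + 1 := by omega
    obtain ⟨hs1, hs2⟩ := state_la D δ (M - (i + 1)) k
    rw [← hM] at hs1 hs2
    change Wv D δ M i _ + 2 ^ (M - (i + 1)) * δ * (prg (sg D δ M i _) (ct D δ (M - i) _) : ℤ) =
      Wv D δ M i k + 2 ^ (M - (i + 1)) * δ * (prg (sg D δ M i k) (ct D δ (M - i) k) : ℤ)
    have h1 : Wv D δ M i (la D δ (M - (i + 1)) k) = Wv D δ M i k := by
      rw [← ih (la D δ (M - (i + 1)) k) (by omega), hs1, ih k (by omega)]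
    have h2 : sg D δ M i (la D δ (M - (i + 1)) k) = sg D δ M i k := by
      rw [← sg_la D δ M i (la D δ (M - (i + 1)) k) (by omega), hs1, sg_la D δ M i k (by omega)]
    rw [h1, h2, hs2]

/-- The increment over a complete interval of level `M - i`. -/
theorem increment (M i k : ℕ) (hi : i ≤ M) (htop : ∀ k' ≤ k + 1, la D δ M k' = 0)
    (hstop : la D δ (M - i) (k + 1) = k + 1) :
    Wv D δ M i (k + 1) - Wv D δ M i k = 2 ^ (M - i) * δ * (sg D δ M i k : ℤ) := by
  induction i with
  | zero =>
    exfalso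
    have := htop (k + 1) le_rfl
    rw [Nat.sub_zero] at hstop
    omega
  | succ i ih =>
    have hM : M - i = (M - (i + 1)) + 1 := by omega
    set m := M - (i + 1) with hm
    change (Wv D δ M i (k + 1) +
        2 ^ m * δ * (prg (sg D δ M i (k + 1)) (ct D δ (M - i) (k + 1)) : ℤ)) -
      (Wv D δ M i k + 2 ^ m * δ * (prg (sg D δ M i k) (ct D δ (M - i) k) : ℤ)) =
      2 ^ m * δ * (dir (sg D δ M i (la D δ m k)) (ct D δ (M - i) (la D δ m k)) : ℤ)
    obtain ⟨hs1, hs2⟩ := state_la D δ m k
    rw [← hM] at hs1 hs2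
    have hsg : sg D δ M i (la D δ m k) = sg D δ M i k := by
      rw [← sg_la D δ M i (la D δ m k) (by omega), hs1, sg_la D δ M i k (by omega)]
    rw [hs2, hsg]
    have htc := trans_cases D δ m k
    rw [← hM] at htc
    rcases htc with h | h | h
    · have h1 := ih (by omega) h.2.2.2.1
      rw [h.2.2.2.2]
      have h2 : prg (sg D δ M i (k + 1)) 0 = 0 := by simp [prg]
      rw [h2, ← two_mul_sub_prg _ _ h.2.1]
      push_cast
      rw [hM, pow_succ] at h1
      linarith
    · have h1 : Wv D δ M i (k + 1) = Wv D δ M i k := by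
        rw [← Wv_la D δ M i (k + 1) (by omega), h.2.2.1, Wv_la D δ M i k (by omega)]
      have h2 : sg D δ M i (k + 1) = sg D δ M i k := by
        rw [← sg_la D δ M i (k + 1) (by omega), h.2.2.1, sg_la D δ M i k (by omega)]
      rw [h1, h2, h.2.2.2, ← prg_succ]
      push_cast
      ring
    · exact absurd hstop h.1

theorem Wv_zero (M i : ℕ) : Wv D δ M i 0 = 0 := by
  induction i with
  | zero => rfl
  | succ i ih =>
    change Wv D δ M i 0 + 2 ^ (M - (i + 1)) * δ * (prg (sg D δ M i 0) (ct D δ (M - i) 0) : ℤ) = 0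
    rw [ih, ct_zero]
    simp [prg]

/-- the value differs little from the value at the last stop of level `M - i`. -/
theorem Wv_close (hδ : 0 ≤ δ) (M i k : ℕ) (hi : i ≤ M) :
    |vv D δ M k - Wv D δ M i k| ≤ 2 * (2 ^ (M - i) * δ) := by
  obtain ⟨l, hl⟩ : ∃ l, M = i + l := ⟨M - i, by omega⟩
  have key : ∀ l i, i + l ≤ M → |Wv D δ M (i + l) k - Wv D δ M i k| ≤
      2 * (2 ^ (M - i) * δ) - 2 * (2 ^ (M - (i + l)) * δ) := by
    intro l
    induction l with
    | zero => intro i _; simp
    | succ l ih =>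
      intro i hil
      have h1 := ih i (by omega)
      have h2 : |Wv D δ M (i + (l + 1)) k - Wv D δ M (i + l) k| ≤
          2 * (2 ^ (M - (i + l + 1)) * δ) := by
        change |(Wv D δ M (i + l) k + 2 ^ (M - (i + l + 1)) * δ *
          (prg (sg D δ M (i + l) k) (ct D δ (M - (i + l)) k) : ℤ)) - Wv D δ M (i + l) k| ≤ _
        rw [add_sub_cancel_left, abs_mul, abs_of_nonneg (by positivity)]
        have h3 : |((prg (sg D δ M (i + l) k) (ct D δ (M - (i + l)) k) : ℤ) : ℝ)| ≤ 2 := by
          have := prg_abs_le (sg_abs_le D δ M (i + l) k) (ct D δ (M - (i + l)) k)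
          exact_mod_cast this
        have h4 : (0 : ℝ) ≤ 2 ^ (M - (i + l + 1)) * δ := by positivity
        nlinarith
      have h5 : (2 : ℝ) ^ (M - (i + l)) = 2 * 2 ^ (M - (i + l + 1)) := by
        have : M - (i + l) = (M - (i + l + 1)) + 1 := by omega
        rw [this, pow_succ]; ring
      have h6 : |Wv D δ M (i + (l + 1)) k - Wv D δ M i k| ≤
          |Wv D δ M (i + (l + 1)) k - Wv D δ M (i + l) k| +
            |Wv D δ M (i + l) k - Wv D δ M i k| := abs_sub_le _ _ _
      rw [h5] at h1
      have h7 : i + (l + 1) = i + l + 1 := by ring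
      rw [h7] at h6 h2 ⊢
      linarith
  have h1 := key l i (by omega)
  rw [← hl] at h1
  unfold vv
  have h2 : (0 : ℝ) ≤ 2 * (2 ^ (M - M) * δ) := by positivity
  linarith

/-! ### Bounds for the process -/

theorem stop_at_most_one (hD : Mono D δ K) {m i j : ℕ} (hj : j ≤ K)
    (hlt : D i j < 2 ^ m * δ) {q : ℕ} (hq : la D δ (m + 1) (q + 1) = q + 1) (hqj : q + 1 ≤ j)
    : la D δ (m + 1) q ≤ i := by
  by_contra hc
  push Not at hc
  have h1 := interval_lower m q hq
  have h2 := hD.mono i (la D δ (m + 1) q) (q + 1) j hc.le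
    ((la_le D δ (m + 1) q).trans (Nat.le_succ q)) hqj hj
  linarith

/-- at a stop of level `m`, the value of the process is the value at level `m`. -/
theorem vv_stop (M m k : ℕ) (hm : m ≤ M) (h : la D δ m k = k) :
    vv D δ M k = Wv D δ M (M - m) k := by
  have key : ∀ l, l ≤ m → Wv D δ M (M - m + l) k = Wv D δ M (M - m) k := by
    intro l
    induction l with
    | zero => intro _; rfl
    | succ l ih =>
      intro hl
      have h1 := ih (by omega)
      have hst : ∀ l', l' ≤ m → la D δ (m - l') k = k := by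
        intro l'
        induction l' with
        | zero => intro _; exact h
        | succ l' ih' =>
          intro hl'
          refine stop_of_succ D δ _ k ?_
          have : m - (l' + 1) + 1 = m - l' := by omega
          rw [this]
          exact ih' (by omega)
      have h2 : ct D δ (M - (M - m + l)) k = 0 := by
        have : M - (M - m + l) = (m - (l + 1)) + 1 := by omega
        rw [this]
        refine ct_stop D δ _ k ?_
        have : m - (l + 1) + 1 = m - l := by omega
        rw [this]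
        exact hst l (by omega)
      change Wv D δ M (M - m + l) k + 2 ^ (M - (M - m + l + 1)) * δ *
        (prg (sg D δ M (M - m + l) k) (ct D δ (M - (M - m + l)) k) : ℤ) = _
      rw [h2, h1]
      simp [prg]
  have h1 := key m le_rfl
  have h2 : M - m + m = M := by omega
  rw [h2] at h1
  exact h1

theorem no_top_stop (hD : Mono D δ K) {M : ℕ} (hM : D 0 K < 2 ^ M * δ) (k : ℕ) (hk : k ≤ K) :
    la D δ (M + 1) k = 0 := by
  induction k with
  | zero => exact la_zero D δ _
  | succ k ih =>
    rcases la_succ_level D δ (M + 1) k with h | h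
    · rw [h]; exact ih (by omega)
    · exfalso
      have h1 := interval_lower M k h
      rw [ih (by omega)] at h1
      have h2 := hD.mono 0 0 (k + 1) K le_rfl (Nat.zero_le _) hk le_rfl
      linarith

theorem upper_level (hδ : 0 ≤ δ) (hD : Mono D δ K) {M : ℕ} (hM : D 0 K < 2 ^ M * δ) {m i j : ℕ}
    (hm : m ≤ M) (hij : i ≤ j) (hj : j ≤ K) (hlt : D i j < 2 ^ m * δ) :
    |vv D δ (M + 1) i - vv D δ (M + 1) j| ≤ 5 * (2 ^ (m + 1) * δ) := by
  have hc1 := Wv_close D δ hδ (M + 1) (M + 1 - (m + 1)) i (by omega)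
  have hc2 := Wv_close D δ hδ (M + 1) (M + 1 - (m + 1)) j (by omega)
  have he : M + 1 - (M + 1 - (m + 1)) = m + 1 := by omega
  rw [he] at hc1 hc2
  have hmid : |Wv D δ (M + 1) (M + 1 - (m + 1)) i - Wv D δ (M + 1) (M + 1 - (m + 1)) j| ≤
      2 ^ (m + 1) * δ := by
    have hla : ∀ k, Wv D δ (M + 1) (M + 1 - (m + 1)) (la D δ (m + 1) k) =
        Wv D δ (M + 1) (M + 1 - (m + 1)) k := by
      intro k
      have := Wv_la D δ (M + 1) (M + 1 - (m + 1)) k (by omega)
      rw [he] at this
      exact this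
    by_cases hcase : la D δ (m + 1) j ≤ i
    · have h1 := la_eq_of_le D δ hcase hij
      rw [← hla i, h1, hla j, sub_self, abs_zero]
      positivity
    · push Not at hcase
      obtain ⟨q, hq⟩ : ∃ q, la D δ (m + 1) j = q + 1 := ⟨la D δ (m + 1) j - 1, by omega⟩
      have hqs : la D δ (m + 1) (q + 1) = q + 1 := by rw [← hq]; exact la_la D δ _ _
      have hqj : q + 1 ≤ j := by rw [← hq]; exact la_le D δ _ _
      have h1 := stop_at_most_one D δ hD hj hlt hqs hqj
      have h2 : la D δ (m + 1) i = la D δ (m + 1) q := la_eq_of_le D δ h1 (by omega)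
      have hinc := increment D δ (M + 1) (M + 1 - (m + 1)) q (by omega)
        (fun k' hk' => no_top_stop D δ hD hM k' (by omega)) (by rw [he]; exact hqs)
      rw [he] at hinc
      have h3 : Wv D δ (M + 1) (M + 1 - (m + 1)) i = Wv D δ (M + 1) (M + 1 - (m + 1)) q := by
        rw [← hla i, h2, hla q]
      have h4 : Wv D δ (M + 1) (M + 1 - (m + 1)) j = Wv D δ (M + 1) (M + 1 - (m + 1)) (q + 1) := by
        rw [← hla j, hq]
      rw [h3, h4, abs_sub_comm, hinc, abs_mul, abs_of_nonneg (by positivity)]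
      have h5 : |((sg D δ (M + 1) (M + 1 - (m + 1)) q : ℤ) : ℝ)| ≤ 1 := by
        have := sg_abs_le D δ (M + 1) (M + 1 - (m + 1)) q
        exact_mod_cast this
      have h6 : (0 : ℝ) ≤ 2 ^ (m + 1) * δ := by positivity
      nlinarith
  have h1 := abs_sub_le (vv D δ (M + 1) i) (Wv D δ (M + 1) (M + 1 - (m + 1)) i)
    (vv D δ (M + 1) j)
  have h2 := abs_sub_le (Wv D δ (M + 1) (M + 1 - (m + 1)) i)
    (Wv D δ (M + 1) (M + 1 - (m + 1)) j) (vv D δ (M + 1) j)
  rw [abs_sub_comm (vv D δ (M + 1) j)] at hc2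
  linarith

/-- **Upper bound**: the process is Lipschitz at scales above `δ`. -/
theorem upper_bound (hδ : 0 < δ) (hD : Mono D δ K) {M : ℕ} (hM : D 0 K < 2 ^ M * δ) {i j : ℕ}
    (hij : i ≤ j) (hj : j ≤ K) :
    |vv D δ (M + 1) i - vv D δ (M + 1) j| ≤ 20 * (D i j + δ) := by
  have hnn := hD.nonneg i j
  have hex : ∃ m, D i j < 2 ^ m * δ := by
    refine ⟨M, lt_of_le_of_lt ?_ hM⟩
    exact hD.mono 0 i j K (Nat.zero_le _) hij hj le_rfl
  classical
  have hm := Nat.find_spec hex
  have hmin := fun m' (h : m' < Nat.find hex) => Nat.find_min hex h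
  have hle : Nat.find hex ≤ M := by
    refine Nat.find_min' hex (lt_of_le_of_lt ?_ hM)
    exact hD.mono 0 i j K (Nat.zero_le _) hij hj le_rfl
  set m := Nat.find hex with hmdef
  have h1 := upper_level D δ hδ.le hD hM hle hij hj hm
  rcases Nat.eq_zero_or_pos m with h0 | hpos
  · rw [h0] at h1
    norm_num at h1
    nlinarith
  · obtain ⟨m', hm'⟩ : ∃ m', m = m' + 1 := ⟨m - 1, by omega⟩
    have h2 := hmin m' (by omega)
    push Not at h2
    rw [hm', pow_succ, pow_succ] at h1
    nlinarith

/-- **Lower bound** at a fixed level. -/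
theorem lower_level (hδ : 0 ≤ δ) (hD : Mono D δ K) {M : ℕ} (hM : D 0 K < 2 ^ M * δ) {m i j : ℕ}
    (hm : m + 1 ≤ M) (hij : i ≤ j) (hj : j ≤ K) (hlt : 2 ^ (m + 2) * δ < D i j) :
    ∃ a b, i ≤ a ∧ a ≤ j ∧ i ≤ b ∧ b ≤ j ∧
      2 ^ m * δ ≤ |vv D δ (M + 1) a - vv D δ (M + 1) b| := by
  classical
  -- next stop of level `m+1` after `i`
  have next : ∀ i', i ≤ i' → i' ≤ j → 2 ^ (m + 1) * δ < D i' j →
      ∃ p, i' ≤ p ∧ p + 1 ≤ j ∧ la D δ (m + 1) (p + 1) = p + 1 ∧
        la D δ (m + 1) p ≤ i' := by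
    intro i' hi' hi'j hlt'
    have hex : ∃ p, i' ≤ p ∧ p + 1 ≤ j ∧ la D δ (m + 1) (p + 1) = p + 1 := by
      by_contra hcon
      push Not at hcon
      have hconst : ∀ p, i' ≤ p → p ≤ j → la D δ (m + 1) p ≤ i' := by
        intro p
        induction p with
        | zero => intro _ _; rw [la_zero]; exact Nat.zero_le _
        | succ p ih =>
          intro h1 h2
          rcases Nat.eq_or_lt_of_le h1 with h3 | h3
          · rw [h3]; exact la_le D δ _ _
          · have h4 := hcon p (by omega) h2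
            rcases la_succ_level D δ (m + 1) p with h5 | h5
            · rw [h5]; exact ih (by omega) (by omega)
            · exact absurd h5 h4
      rcases Nat.eq_or_lt_of_le hi'j with h | h
      · rw [← h, hD.self] at hlt'
        have : (0 : ℝ) ≤ 2 ^ (m + 1) * δ := by positivity
        linarith
      · obtain ⟨j', hj'⟩ : ∃ j', j = j' + 1 := ⟨j - 1, by omega⟩
        have h1 := interval_bound hD (m + 1) j' (by omega)
        have h2 := hconst j' (by omega) (by omega)
        have h3 := hD.mono (la D δ (m + 1) j') i' (j' + 1) (j' + 1) h2 (by omega) le_rfl (by omega)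
        rw [hj'] at hlt'
        linarith
    have hspec := Nat.find_spec hex
    have hmin := fun m' (h : m' < Nat.find hex) => Nat.find_min hex h
    set p := Nat.find hex with hp
    refine ⟨p, hspec.1, hspec.2.1, hspec.2.2, ?_⟩
    by_contra hc
    push Not at hc
    set l := la D δ (m + 1) p with hl
    have hlp : l ≤ p := la_le D δ _ _
    have h1 := hmin (l - 1) (by omega)
    apply h1
    refine ⟨by omega, by omega, ?_⟩
    have : l - 1 + 1 = l := by omega
    rw [this, hl]
    exact la_la D δ _ _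
  have hpow : (2 : ℝ) ^ (m + 2) = 2 * 2 ^ (m + 1) := by ring
  have hnn : (0 : ℝ) ≤ 2 ^ (m + 1) * δ := by positivity
  obtain ⟨p, hp1, hp2, hp3, hp4⟩ := next i le_rfl hij (by rw [hpow] at hlt; nlinarith)
  have hDp : D i (p + 1) ≤ 2 ^ (m + 1) * δ := by
    have h1 := interval_bound hD (m + 1) p (by omega)
    have h2 := hD.mono (la D δ (m + 1) p) i (p + 1) (p + 1) hp4 (by omega) le_rfl (by omega)
    linarith
  have htri := hD.tri i (p + 1) j (by omega) hp2 hj
  obtain ⟨q, hq1, hq2, hq3, hq4⟩ := next (p + 1) (by omega) hp2 (by rw [hpow] at hlt; nlinarith)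
  -- next stop of level `m` after `p+1`
  have hex2 : ∃ r, p + 1 ≤ r ∧ la D δ m (r + 1) = r + 1 := ⟨q, hq1, stop_of_succ D δ m _ hq3⟩
  have hspec := Nat.find_spec hex2
  have hmin := fun m' (h : m' < Nat.find hex2) => Nat.find_min hex2 h
  have hrq : Nat.find hex2 ≤ q := Nat.find_min' hex2 ⟨hq1, stop_of_succ D δ m _ hq3⟩
  set r := Nat.find hex2 with hr
  have hps : la D δ m (p + 1) = p + 1 := stop_of_succ D δ m _ hp3
  have hlar : la D δ m r = p + 1 := by
    have h1 : p + 1 ≤ la D δ m r := by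
      rw [← hps]; exact la_mono D δ m hspec.1
    rcases Nat.eq_or_lt_of_le h1 with h2 | h2
    · exact h2.symm
    · exfalso
      set l := la D δ m r with hl
      have hlr : l ≤ r := la_le D δ _ _
      apply hmin (l - 1) (by omega)
      refine ⟨by omega, ?_⟩
      have : l - 1 + 1 = l := by omega
      rw [this, hl]
      exact la_la D δ _ _
  refine ⟨r + 1, p + 1, by omega, by omega, by omega, hp2, ?_⟩
  rw [vv_stop D δ (M + 1) m (r + 1) (by omega) hspec.2,
    vv_stop D δ (M + 1) m (p + 1) (by omega) hps]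
  have he : M + 1 - (M + 1 - m) = m := by omega
  have hla := Wv_la D δ (M + 1) (M + 1 - m) r (by omega)
  rw [he, hlar] at hla
  rw [hla]
  have hinc := increment D δ (M + 1) (M + 1 - m) r (by omega)
    (fun k' hk' => no_top_stop D δ hD hM k' (by omega)) (by rw [he]; exact hspec.2)
  rw [he] at hinc
  rw [hinc, abs_mul, abs_of_nonneg (by positivity)]
  have hsg : (1 : ℤ) ≤ |sg D δ (M + 1) (M + 1 - m) r| := by
    have he2 : M + 1 - m = (M - m) + 1 := by omega
    rw [he2]
    change 1 ≤ |dir (sg D δ (M + 1) (M - m) (la D δ (M + 1 - (M - m + 1)) r))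
      (ct D δ (M + 1 - (M - m)) (la D δ (M + 1 - (M - m + 1)) r))|
    have he3 : M + 1 - (M - m + 1) = m := by omega
    have he4 : M + 1 - (M - m) = m + 1 := by omega
    rw [he3, he4, hlar, ct_stop D δ m (p + 1) hp3]
    unfold dir
    rw [if_pos rfl]
    split_ifs with h0
    · simp
    · exact Int.one_le_abs h0
  have hsg' : (1 : ℝ) ≤ |((sg D δ (M + 1) (M + 1 - m) r : ℤ) : ℝ)| := by exact_mod_cast hsg
  have h6 : (0 : ℝ) ≤ 2 ^ m * δ := by positivity
  nlinarith

/-- **Lower bound**: the process oscillates at all scales above `4 δ`. -/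
theorem lower_bound (hδ : 0 < δ) (hD : Mono D δ K) {M : ℕ} (hM : D 0 K < 2 ^ M * δ) {i j : ℕ}
    (hij : i ≤ j) (hj : j ≤ K) (hlt : 4 * δ < D i j) :
    ∃ a b, i ≤ a ∧ a ≤ j ∧ i ≤ b ∧ b ≤ j ∧
      D i j / 8 ≤ |vv D δ (M + 1) a - vv D δ (M + 1) b| := by
  classical
  have hDM : D i j < 2 ^ M * δ :=
    lt_of_le_of_lt (hD.mono 0 i j K (Nat.zero_le _) hij hj le_rfl) hM
  have hex : ∃ m, D i j ≤ 2 ^ (m + 3) * δ := by
    refine ⟨M, hDM.le.trans ?_⟩
    have : (2 : ℝ) ^ M ≤ 2 ^ (M + 3) := pow_le_pow_right₀ (by norm_num) (by omega)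
    nlinarith
  have hspec := Nat.find_spec hex
  have hmin := fun m' (h : m' < Nat.find hex) => Nat.find_min hex h
  set m := Nat.find hex with hm
  have hlow : 2 ^ (m + 2) * δ < D i j := by
    rcases Nat.eq_zero_or_pos m with h0 | hpos
    · rw [h0]; norm_num; linarith
    · obtain ⟨m', hm'⟩ : ∃ m', m = m' + 1 := ⟨m - 1, by omega⟩
      have h2 := hmin m' (by omega)
      push Not at h2
      rw [hm']
      have : m' + 1 + 2 = m' + 3 := by omega
      rw [this]; exact h2
  have hmM : m + 1 ≤ M := by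
    by_contra hc
    push Not at hc
    have h1 : (2 : ℝ) ^ M ≤ 2 ^ (m + 2) := pow_le_pow_right₀ (by norm_num) (by omega)
    nlinarith
  obtain ⟨a, b, h1, h2, h3, h4, h5⟩ := lower_level D δ hδ.le hD hM hmM hij hj hlow
  refine ⟨a, b, h1, h2, h3, h4, le_trans ?_ h5⟩
  have : (2 : ℝ) ^ (m + 3) = 8 * 2 ^ m := by ring
  rw [this] at hspec
  linarith

/-! ### Non-anticipation -/

theorem st_congr {D' : ℕ → ℕ → ℝ} (k : ℕ) (h : ∀ i j, i ≤ k → j ≤ k → D i j = D' i j) (m : ℕ) :
    ∀ k', k' ≤ k → st D δ m k' = st D' δ m k' := by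
  induction m with
  | zero => intro k' _; rfl
  | succ m ih =>
    intro k'
    induction k' with
    | zero => intro _; rfl
    | succ k' ih' =>
      intro hk'
      have e1 := ih' (by omega)
      have e2 := ih (k' + 1) hk'
      rw [st_succ_succ, st_succ_succ]
      unfold la
      rw [← e1, ← e2]
      have hla : (st D δ (m + 1) k').1 ≤ k' := la_le D δ (m + 1) k'
      unfold upd
      rw [h _ (k' + 1) (by omega) hk']

theorem la_congr {D' : ℕ → ℕ → ℝ} (k : ℕ) (h : ∀ i j, i ≤ k → j ≤ k → D i j = D' i j) (m : ℕ)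
    (k' : ℕ) (hk' : k' ≤ k) : la D δ m k' = la D' δ m k' := by
  unfold la; rw [st_congr D δ k h m k' hk']

theorem ct_congr {D' : ℕ → ℕ → ℝ} (k : ℕ) (h : ∀ i j, i ≤ k → j ≤ k → D i j = D' i j) (m : ℕ)
    (k' : ℕ) (hk' : k' ≤ k) : ct D δ m k' = ct D' δ m k' := by
  unfold ct; rw [st_congr D δ k h m k' hk']

theorem sg_congr {D' : ℕ → ℕ → ℝ} (k : ℕ) (h : ∀ i j, i ≤ k → j ≤ k → D i j = D' i j) (M i : ℕ) :
    ∀ k', k' ≤ k → sg D δ M i k' = sg D' δ M i k' := by
  induction i with
  | zero => intro k' _; rfl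
  | succ i ih =>
    intro k' hk'
    change dir (sg D δ M i (la D δ (M - (i + 1)) k')) (ct D δ (M - i) (la D δ (M - (i + 1)) k')) =
      dir (sg D' δ M i (la D' δ (M - (i + 1)) k')) (ct D' δ (M - i) (la D' δ (M - (i + 1)) k'))
    rw [← la_congr D δ k h _ k' hk']
    have h1 : la D δ (M - (i + 1)) k' ≤ k := (la_le D δ _ _).trans hk'
    rw [ih _ h1, ct_congr D δ k h _ _ h1]

theorem Wv_congr {D' : ℕ → ℕ → ℝ} (k : ℕ) (h : ∀ i j, i ≤ k → j ≤ k → D i j = D' i j) (M i : ℕ) :
    ∀ k', k' ≤ k → Wv D δ M i k' = Wv D' δ M i k' := by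
  induction i with
  | zero => intro k' _; rfl
  | succ i ih =>
    intro k' hk'
    change Wv D δ M i k' + 2 ^ (M - (i + 1)) * δ *
        (prg (sg D δ M i k') (ct D δ (M - i) k') : ℤ) =
      Wv D' δ M i k' + 2 ^ (M - (i + 1)) * δ *
        (prg (sg D' δ M i k') (ct D' δ (M - i) k') : ℤ)
    rw [ih k' hk', sg_congr D δ k h M i k' hk', ct_congr D δ k h _ k' hk']

/-- the process at time `k'` only depends on the past. -/
theorem vv_congr {D' : ℕ → ℕ → ℝ} (k : ℕ) (h : ∀ i j, i ≤ k → j ≤ k → D i j = D' i j) (M : ℕ)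
    (k' : ℕ) (hk' : k' ≤ k) : vv D δ M k' = vv D' δ M k' :=
  Wv_congr D δ k h M M k' hk'

theorem vv_zero (M : ℕ) : vv D δ M 0 = 0 := Wv_zero D δ M M

end Pool.Agent.Lib.MP_f6f14e_gt
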