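import Pool.Agent.Lib.MP_f6f14e_gt.Arc
import Pool.Agent.Lib.MP_f6f14e_gt.Online

/-!
# Stops along the arcs from a root, and the approximate Lipschitz light map
-/

open Set Filter Topology Metric

namespace Pool.Agent.Lib.MP_f6f14e_gt

variable {T : Type*} [MetricSpace T]

namespace SegSys

variable (S : SegSys T)

/-- the diameter of the arc between two points -/
noncomputable def rho (x y : T) : ℝ := diam (S.seg x y)

theorem rho_nonneg (x y : T) : 0 ≤ S.rho x y := diam_nonneg

theorem rho_self (x : T) : S.rho x x = 0 := by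
  unfold rho; rw [S.self, diam_singleton]

theorem rho_symm (x y : T) : S.rho x y = S.rho y x := by
  unfold rho; rw [S.symm]

theorem rho_sub {x y z w : T} (h : S.seg z w ⊆ S.seg x y) : S.rho z w ≤ S.rho x y :=
  diam_mono h (S.compact x y).isBounded

theorem rho_left {x y z : T} (h : z ∈ S.seg x y) : S.rho x z ≤ S.rho x y :=
  S.rho_sub (S.sub_left h)

theorem rho_right {x y z : T} (h : z ∈ S.seg x y) : S.rho z y ≤ S.rho x y :=
  S.rho_sub (S.sub_right h)

theorem rho_tri (x w y : T) : S.rho x y ≤ S.rho x w + S.rho w y := by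
  have h1 : S.rho x y ≤ diam (S.seg x w ∪ S.seg w y) :=
    diam_mono (S.triangle x y w) ((S.compact x w).isBounded.union (S.compact w y).isBounded)
  exact h1.trans (diam_union' ⟨w, S.right_mem x w, S.left_mem w y⟩)

theorem dist_le_rho (x y : T) : dist x y ≤ S.rho x y :=
  dist_le_diam_of_mem (S.compact x y).isBounded (S.left_mem x y) (S.right_mem x y)

theorem mid {p x a b : T} (ha : a ∈ S.seg p x) (hb : b ∈ S.seg a x) : a ∈ S.seg p b := by
  have hb' : b ∈ S.seg p x := S.sub_right ha hb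
  rcases S.order ha hb' with h | h
  · have : b = a := S.inter p x a ha ⟨h, hb⟩
    rw [this]; exact S.right_mem p a
  · exact h

end SegSys

section Stops

variable (S : SegSys T) {C : ℝ} (hC : ∀ x y, S.rho x y ≤ C * dist x y) (δ : ℝ)

include hC in
theorem rho_continuous (s : T) : Continuous (fun w => S.rho s w) := by
  have h : ∀ w w', |S.rho s w - S.rho s w'| ≤ |C| * dist w w' := by
    intro w w'
    have h1 := S.rho_tri s w w'
    have h2 := S.rho_tri s w' w
    have h3 := hC w w'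
    have h4 := hC w' w
    rw [dist_comm] at h4
    have h5 : C * dist w w' ≤ |C| * dist w w' :=
      mul_le_mul_of_nonneg_right (le_abs_self C) dist_nonneg
    rw [abs_le]; constructor <;> linarith
  have h2 : LipschitzWith ⟨|C|, abs_nonneg C⟩ (fun w => S.rho s w) :=
    LipschitzWith.of_dist_le_mul fun x y => by rw [Real.dist_eq]; exact h x y
  exact h2.continuous

/-- `z` is the first point on `[s,x]` with `rho s z ≥ δ`. -/
def NextP (s x z : T) : Prop :=
  z ∈ S.seg s x ∧ S.rho s z = δ ∧ ∀ w ∈ S.seg s z, δ ≤ S.rho s w → w = z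

include hC in
theorem exists_next (hδ : 0 < δ) {s x : T} (h : δ ≤ S.rho s x) : ∃ z, NextP S δ s x z := by
  have hF : IsClosed {w | δ ≤ S.rho s w} := isClosed_le continuous_const (rho_continuous S hC s)
  obtain ⟨z, hz1, hz2, hz3⟩ := S.first _ hF s x h
  refine ⟨z, hz1, ?_, fun w hw1 hw2 => hz3 ⟨hw1, hw2⟩⟩
  refine le_antisymm ?_ hz2
  by_contra hcon
  push Not at hcon
  have h1 := (isPreconnected_closed_iff.1 (S.conn s z)) {w | δ ≤ S.rho s w} {w | S.rho s w ≤ δ} hF
    (isClosed_le (rho_continuous S hC s) continuous_const)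
    (fun w _ => le_total δ (S.rho s w))
    ⟨z, S.right_mem s z, hz2⟩ ⟨s, S.left_mem s z, by
      change S.rho s s ≤ δ
      rw [S.rho_self]; exact hδ.le⟩
  obtain ⟨w, hw1, hw2, hw3⟩ := h1
  have h2 : w = z := hz3 ⟨hw1, hw2⟩
  rw [h2] at hw3
  exact absurd hw3 (not_le.2 hcon)

theorem next_unique {s x z z' : T} (h : NextP S δ s x z) (h' : NextP S δ s x z') : z = z' := by
  rcases S.order h.1 h'.1 with h1 | h1
  · exact (h.2.2 z' h1 h'.2.1.ge).symm
  · exact h'.2.2 z h1 h.2.1.ge

open Classical in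
/-- the next stop -/
noncomputable def nxt (s x : T) : T := if h : ∃ z, NextP S δ s x z then h.choose else s

/-- the stops towards `x`. -/
noncomputable def stp (r x : T) : ℕ → T
  | 0 => r
  | k + 1 => nxt S δ (stp r x k) x

theorem nxt_spec {s x : T} (h : ∃ z, NextP S δ s x z) : NextP S δ s x (nxt S δ s x) := by
  unfold nxt; rw [dif_pos h]; exact h.choose_spec

theorem nxt_mem (s x : T) : nxt S δ s x ∈ S.seg s x := by
  by_cases h : ∃ z, NextP S δ s x z
  · exact (nxt_spec S δ h).1
  · unfold nxt; rw [dif_neg h]; exact S.left_mem s x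

theorem nxt_le (hδ : 0 ≤ δ) (s x : T) : S.rho s (nxt S δ s x) ≤ δ := by
  by_cases h : ∃ z, NextP S δ s x z
  · exact (nxt_spec S δ h).2.1.le
  · unfold nxt; rw [dif_neg h, S.rho_self]; exact hδ

variable (r : T)

theorem stp_mem_of_le (x : T) {i j : ℕ} (hij : i ≤ j) :
    stp S δ r x j ∈ S.seg (stp S δ r x i) x := by
  induction j, hij using Nat.le_induction with
  | base => exact S.left_mem _ _
  | succ j _ ih => exact S.sub_right ih (nxt_mem S δ _ x)

theorem stp_mem (x : T) (i : ℕ) : stp S δ r x i ∈ S.seg r x :=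
  stp_mem_of_le S δ r x (Nat.zero_le i)

theorem stp_between (x : T) {i j k : ℕ} (hij : i ≤ j) (hjk : j ≤ k) :
    stp S δ r x j ∈ S.seg (stp S δ r x i) (stp S δ r x k) :=
  S.mid (stp_mem_of_le S δ r x hij) (stp_mem_of_le S δ r x hjk)

/-- the distances along the stops -/
noncomputable def DD (x : T) (i j : ℕ) : ℝ := S.rho (stp S δ r x i) (stp S δ r x j)

theorem DD_mono (hδ : 0 ≤ δ) (x : T) (K : ℕ) : Mono (DD S δ r x) δ K where
  nonneg i j := S.rho_nonneg _ _
  self i := S.rho_self _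
  tri i j k _ _ _ := S.rho_tri _ _ _
  mono i i' j' j h1 h2 h3 _ := by
    refine S.rho_sub ((S.sub_right (stp_between S δ r x h1 h2)).trans ?_)
    exact S.sub_left (stp_between S δ r x (h1.trans h2) h3)
  step i _ := nxt_le S δ hδ _ _

include hC in
theorem exists_K [CompactSpace T] (hδ : 0 < δ) (x : T) : ∃ k, S.rho (stp S δ r x k) x < δ := by
  by_contra hcon
  push Not at hcon
  have h1 : ∀ k, S.rho (stp S δ r x k) (stp S δ r x (k + 1)) = δ := fun k =>
    (nxt_spec S δ (exists_next S hC δ hδ (hcon k))).2.1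
  have h2 : ∀ i j, i < j → δ ≤ C * dist (stp S δ r x i) (stp S δ r x j) := by
    intro i j hij
    refine le_trans ?_ (hC _ _)
    have := (DD_mono S δ r hδ.le x j).mono i i (i + 1) j le_rfl (Nat.le_succ i) hij le_rfl
    unfold DD at this
    rw [h1] at this
    exact this
  obtain ⟨a, φ, hφ, ha⟩ := CompactSpace.tendsto_subseq (stp S δ r x)
  have hcau := ha.cauchySeq
  rw [Metric.cauchySeq_iff] at hcau
  have hCpos : 0 < C := by
    by_contra hc
    push Not at hc
    have := h2 0 1 (by norm_num)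
    have h3 : C * dist (stp S δ r x 0) (stp S δ r x 1) ≤ 0 :=
      mul_nonpos_of_nonpos_of_nonneg hc dist_nonneg
    linarith
  obtain ⟨N, hN⟩ := hcau (δ / C) (by positivity)
  have h3 := hN N le_rfl (N + 1) (Nat.le_succ N)
  have h4 := h2 (φ N) (φ (N + 1)) (hφ (Nat.lt_succ_self N))
  simp only [Function.comp] at h3
  rw [lt_div_iff₀ hCpos] at h3
  linarith

open Classical in
/-- the number of stops before `x` -/
noncomputable def KK (x : T) : ℕ := if h : ∃ k, S.rho (stp S δ r x k) x < δ then Nat.find h else 0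

section Facts

variable [CompactSpace T] (hδ : 0 < δ)

include hC hδ in
theorem KK_spec (x : T) : S.rho (stp S δ r x (KK S δ r x)) x < δ := by
  classical
  have h := exists_K S hC δ r hδ x
  unfold KK; rw [dif_pos h]; exact Nat.find_spec h

include hC hδ in
theorem KK_min (x : T) {k : ℕ} (hk : k < KK S δ r x) : δ ≤ S.rho (stp S δ r x k) x := by
  classical
  have h := exists_K S hC δ r hδ x
  unfold KK at hk; rw [dif_pos h] at hk
  exact not_lt.1 (Nat.find_min h hk)

include hC hδ in
theorem stp_next (x : T) {k : ℕ} (hk : k < KK S δ r x) :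
    NextP S δ (stp S δ r x k) x (stp S δ r x (k + 1)) :=
  nxt_spec S δ (exists_next S hC δ hδ (KK_min S hC δ r hδ x hk))

include hC hδ in
theorem stp_coherent {x z : T} (hz : z ∈ S.seg r x) {k : ℕ} (hk : k ≤ KK S δ r z) :
    stp S δ r z k = stp S δ r x k := by
  induction k with
  | zero => rfl
  | succ k ih =>
    have ih' := ih (by omega)
    have h1 := stp_next S hC δ r hδ z (k := k) (by omega)
    have h2 := KK_min S hC δ r hδ z (k := k) (by omega)
    have hzx : z ∈ S.seg (stp S δ r z k) x := S.mem_of_mem hz (stp_mem S δ r z k)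
    have h3 : NextP S δ (stp S δ r z k) x (stp S δ r z (k + 1)) :=
      ⟨S.sub_left hzx h1.1, h1.2⟩
    have h4 : δ ≤ S.rho (stp S δ r z k) x := h2.trans (S.rho_left hzx)
    have h5 := nxt_spec S δ (exists_next S hC δ hδ h4)
    change stp S δ r z (k + 1) = nxt S δ (stp S δ r x k) x
    rw [← ih']
    exact next_unique S δ h3 h5

include hC hδ in
theorem KK_le {x z : T} (hz : z ∈ S.seg r x) : KK S δ r z ≤ KK S δ r x := by
  by_contra hcon
  push Not at hcon
  have h1 := KK_min S hC δ r hδ z hcon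
  have h2 := KK_spec S hC δ r hδ x
  have h3 := stp_coherent S hC δ r hδ hz hcon.le
  rw [h3] at h1
  have hzx : z ∈ S.seg (stp S δ r x (KK S δ r x)) x := by
    rw [← h3]; exact S.mem_of_mem hz (stp_mem S δ r z _)
  have := S.rho_left hzx
  linarith

include hC hδ in
theorem KK_stp (x : T) {a : ℕ} (ha : a ≤ KK S δ r x) : KK S δ r (stp S δ r x a) = a := by
  have hz := stp_mem S δ r x a
  apply le_antisymm
  · by_contra hcon
    push Not at hcon
    have h1 := KK_min S hC δ r hδ (stp S δ r x a) hcon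
    rw [stp_coherent S hC δ r hδ hz hcon.le, S.rho_self] at h1
    linarith
  · by_contra hcon
    push Not at hcon
    have h1 := KK_spec S hC δ r hδ (stp S δ r x a)
    rw [stp_coherent S hC δ r hδ hz le_rfl] at h1
    set k := KK S δ r (stp S δ r x a) with hk
    have h2 := (stp_next S hC δ r hδ x (k := k) (by omega)).2.1
    have h3 := (DD_mono S δ r hδ.le x a).mono k k (k + 1) a le_rfl (Nat.le_succ _) hcon le_rfl
    unfold DD at h3
    linarith

/-- the approximate map -/
noncomputable def ff (M : ℕ) (x : T) : ℝ := vv (DD S δ r x) δ (M + 1) (KK S δ r x)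

include hC hδ in
theorem ff_eq (M : ℕ) {x z : T} (hz : z ∈ S.seg r x) :
    ff S δ r M z = vv (DD S δ r x) δ (M + 1) (KK S δ r z) := by
  unfold ff
  refine vv_congr _ _ (KK S δ r z) ?_ _ _ le_rfl
  intro i j hi hj
  unfold DD
  rw [stp_coherent S hC δ r hδ hz hi, stp_coherent S hC δ r hδ hz hj]

include hC hδ in
theorem DD_upper {x z : T} (hz : z ∈ S.seg r x) :
    DD S δ r x (KK S δ r z) (KK S δ r x) ≤ S.rho z x + 2 * δ := by
  have h1 := KK_spec S hC δ r hδ z
  rw [stp_coherent S hC δ r hδ hz le_rfl] at h1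
  have h2 := KK_spec S hC δ r hδ x
  have h3 := S.rho_tri (stp S δ r x (KK S δ r z)) z (stp S δ r x (KK S δ r x))
  have h4 := S.rho_tri z x (stp S δ r x (KK S δ r x))
  rw [S.rho_symm x] at h4
  unfold DD
  linarith

include hC hδ in
theorem DD_lower {x z : T} (hz : z ∈ S.seg r x) :
    S.rho z x - 2 * δ ≤ DD S δ r x (KK S δ r z) (KK S δ r x) := by
  have h1 := KK_spec S hC δ r hδ z
  rw [stp_coherent S hC δ r hδ hz le_rfl] at h1
  have h2 := KK_spec S hC δ r hδ x
  have h3 := S.rho_tri z (stp S δ r x (KK S δ r z)) x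
  have h4 := S.rho_tri (stp S δ r x (KK S δ r z)) (stp S δ r x (KK S δ r x)) x
  rw [S.rho_symm z (stp S δ r x (KK S δ r z))] at h3
  unfold DD
  linarith

variable {M : ℕ} (hM : ∀ x y, S.rho x y < 2 ^ M * δ)

include hC hδ hM in
theorem ff_upper_seg {x z : T} (hz : z ∈ S.seg r x) :
    |ff S δ r M z - ff S δ r M x| ≤ 20 * (S.rho z x + 3 * δ) := by
  rw [ff_eq S hC δ r hδ M hz]
  unfold ff
  have h1 := upper_bound (DD S δ r x) δ hδ (DD_mono S δ r hδ.le x (KK S δ r x)) (M := M) (hM _ _)
    (KK_le S hC δ r hδ hz) le_rfl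
  have h2 := DD_upper S hC δ r hδ hz
  linarith

include hC hδ hM in
theorem ff_osc_seg {x z : T} (hz : z ∈ S.seg r x) (hlt : 6 * δ < S.rho z x) :
    ∃ p ∈ S.seg z x, ∃ q ∈ S.seg z x,
      (S.rho z x - 2 * δ) / 8 ≤ |ff S δ r M p - ff S δ r M q| := by
  have h1 := DD_lower S hC δ r hδ hz
  obtain ⟨a, b, ha1, ha2, hb1, hb2, h2⟩ := lower_bound (DD S δ r x) δ hδ
    (DD_mono S δ r hδ.le x (KK S δ r x)) (M := M) (hM _ _)
    (KK_le S hC δ r hδ hz) le_rfl (by linarith)
  have key : ∀ a, KK S δ r z ≤ a → a ≤ KK S δ r x →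
      ∃ p ∈ S.seg z x, ff S δ r M p = vv (DD S δ r x) δ (M + 1) a := by
    intro a ha1 ha2
    rcases ha1.eq_or_lt with h | h
    · exact ⟨z, S.left_mem z x, by rw [ff_eq S hC δ r hδ M hz, h]⟩
    · refine ⟨stp S δ r x a, ?_, ?_⟩
      · rcases S.order hz (stp_mem S δ r x a) with h3 | h3
        · exfalso
          have h4 := KK_le S hC δ r hδ h3
          rw [KK_stp S hC δ r hδ x ha2] at h4
          omega
        · exact S.mem_of_mem (stp_mem S δ r x a) h3
      · rw [ff_eq S hC δ r hδ M (stp_mem S δ r x a), KK_stp S hC δ r hδ x ha2]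
  obtain ⟨p, hp1, hp2⟩ := key a ha1 ha2
  obtain ⟨q, hq1, hq2⟩ := key b hb1 hb2
  refine ⟨p, hp1, q, hq1, ?_⟩
  rw [hp2, hq2]
  linarith

include hC hδ hM in
theorem ff_upper (x y : T) :
    |ff S δ r M x - ff S δ r M y| ≤ 40 * (S.rho x y + 3 * δ) := by
  obtain ⟨m, h1, h2, h3⟩ := S.median x y r
  rw [S.symm] at h2
  have e1 := ff_upper_seg S hC δ r hδ hM h2
  have e2 := ff_upper_seg S hC δ r hδ hM h3
  have e3 := S.rho_left h1
  have e4 := S.rho_right h1
  rw [S.rho_symm] at e3
  have e5 := abs_sub_le (ff S δ r M x) (ff S δ r M m) (ff S δ r M y)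
  rw [abs_sub_comm] at e1
  linarith

include hC hδ hM in
theorem ff_osc {x y : T} (hlt : 12 * δ < S.rho x y) :
    ∃ p ∈ S.seg x y, ∃ q ∈ S.seg x y,
      (S.rho x y / 2 - 2 * δ) / 8 ≤ |ff S δ r M p - ff S δ r M q| := by
  obtain ⟨m, h1, h2, h3⟩ := S.median x y r
  rw [S.symm] at h2
  have e3 := S.rho_tri x m y
  rcases le_total (S.rho x m) (S.rho m y) with h | h
  · obtain ⟨p, hp, q, hq, h4⟩ := ff_osc_seg S hC δ r hδ hM h3 (by linarith)
    exact ⟨p, S.sub_right h1 hp, q, S.sub_right h1 hq, by linarith⟩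
  · rw [S.rho_symm x m] at h e3
    obtain ⟨p, hp, q, hq, h4⟩ := ff_osc_seg S hC δ r hδ hM h2 (by linarith)
    rw [S.symm] at hp hq
    exact ⟨p, S.sub_left h1 hp, q, S.sub_left h1 hq, by linarith⟩

omit [CompactSpace T] in
theorem ff_root : ff S δ r M r = 0 := by
  have h0 : KK S δ r r = 0 := by
    classical
    unfold KK
    split_ifs with h
    · rw [Nat.find_eq_zero]
      obtain ⟨k, hk⟩ := h
      change S.rho r r < δ
      rw [S.rho_self]
      exact (S.rho_nonneg _ _).trans_lt hk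
    · rfl
  unfold ff
  rw [h0]
  exact vv_zero _ _ _

end Facts

end Stops

end Pool.Agent.Lib.MP_f6f14e_gt
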